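import Pool.Agent.V11201.RP.Run

set_option autoImplicit false
set_option linter.unusedSectionVars false
open Finset

namespace Pool.Agent.V11201.RP

/-- the cross-polytope complex -/
def cross (n : ℕ) : Set (Finset (Fin (n + n))) :=
  {F | F.Nonempty ∧ (∀ i ∈ F, (i : ℕ) < 7 ∨ (n ≤ (i : ℕ) ∧ (i : ℕ) < n + 7)) ∧
    ∀ i ∈ F, io n i ∉ F}

section
variable {n : ℕ} (hn : 7 ≤ n)

/-- the positive vertices -/
def pp (k : Fin 7) : Fin (n + n) := ⟨k, by have := k.2; omega⟩

/-- the negative vertices -/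
def qq (k : Fin 7) : Fin (n + n) := ⟨k + n, by have := k.2; omega⟩

theorem io_pp (k : Fin 7) : io n (pp hn k) = qq hn k := by
  unfold io pp qq
  have := k.2
  rw [dif_pos (by simp; omega)]

theorem io_qq (k : Fin 7) : io n (qq hn k) = pp hn k := by
  rw [← io_pp, io_inv]

theorem pp_inj : Function.Injective (pp hn) := by
  intro a b h
  have := congrArg Fin.val h
  exact Fin.ext this

theorem qq_inj : Function.Injective (qq hn) := by
  intro a b h
  have : (a : ℕ) + n = b + n := congrArg Fin.val h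
  exact Fin.ext (by omega)

theorem pp_ne_qq (a b : Fin 7) : pp hn a ≠ qq hn b := by
  intro h
  have : (a : ℕ) = b + n := congrArg Fin.val h
  have := a.2
  omega

theorem sum_pq {x : Fin (n + n) → ℝ}
    (hx : ∀ i : Fin (n + n), ¬ ((i : ℕ) < 7 ∨ (n ≤ (i : ℕ) ∧ (i : ℕ) < n + 7)) → x i = 0) :
    ∑ i, x i = ∑ k, (x (pp hn k) + x (qq hn k)) := by
  classical
  rw [sum_add_distrib]
  have h1 : ∑ k, x (pp hn k) = ∑ i ∈ univ.image (pp hn), x i := by
    rw [sum_image (fun a _ b _ h => pp_inj hn h)]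
  have h2 : ∑ k, x (qq hn k) = ∑ i ∈ univ.image (qq hn), x i := by
    rw [sum_image (fun a _ b _ h => qq_inj hn h)]
  rw [h1, h2, ← sum_union]
  · symm
    apply sum_subset (subset_univ _)
    intro i _ hi
    apply hx
    rintro (h | ⟨h, h'⟩)
    · apply hi
      rw [mem_union, mem_image]
      exact Or.inl ⟨⟨i, h⟩, mem_univ _, rfl⟩
    · apply hi
      rw [mem_union, mem_image, mem_image]
      refine Or.inr ⟨⟨i - n, by omega⟩, mem_univ _, ?_⟩
      apply Fin.ext
      change (i : ℕ) - n + n = i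
      omega
  · rw [disjoint_left]
    intro i hi hi'
    obtain ⟨a, -, rfl⟩ := mem_image.1 hi
    obtain ⟨b, -, hb⟩ := mem_image.1 hi'
    exact pp_ne_qq hn a b hb.symm

/-- the coordinates -/
noncomputable def co (x : Fin (n + n) → ℝ) : EuclideanSpace ℝ (Fin 7) :=
  WithLp.toLp 2 (fun k => x (pp hn k) - x (qq hn k))

/-- from coordinates to the cross-polytope -/
noncomputable def oc (y : EuclideanSpace ℝ (Fin 7)) : Fin (n + n) → ℝ := fun i =>
  if h : (i : ℕ) < 7 then max (y ⟨i, h⟩) 0 / ∑ k, |y k|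
  else if h : n ≤ (i : ℕ) ∧ (i : ℕ) < n + 7 then
    max (-(y ⟨i - n, by omega⟩)) 0 / ∑ k, |y k|
  else 0

theorem co_apply (x : Fin (n + n) → ℝ) (k : Fin 7) :
    co hn x k = x (pp hn k) - x (qq hn k) := rfl

theorem oc_pp (y : EuclideanSpace ℝ (Fin 7)) (k : Fin 7) :
    oc (n := n) y (pp hn k) = max (y k) 0 / ∑ k, |y k| := by
  unfold oc pp
  rw [dif_pos (by simp)]

theorem oc_qq (y : EuclideanSpace ℝ (Fin 7)) (k : Fin 7) :
    oc (n := n) y (qq hn k) = max (-(y k)) 0 / ∑ k, |y k| := by
  unfold oc qq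
  have := k.2
  rw [dif_neg (by simp; omega), dif_pos (by constructor <;> simp <;> omega)]
  have e : (⟨(k : ℕ) + n - n, by omega⟩ : Fin 7) = k := Fin.ext (by simp)
  simp only [e]

theorem oc_out (y : EuclideanSpace ℝ (Fin 7)) (i : Fin (n + n))
    (h : ¬ ((i : ℕ) < 7 ∨ (n ≤ (i : ℕ) ∧ (i : ℕ) < n + 7))) : oc (n := n) y i = 0 := by
  unfold oc
  rw [dif_neg (fun h' => h (Or.inl h')), dif_neg (fun h' => h (Or.inr h'))]

theorem l1_pos {y : EuclideanSpace ℝ (Fin 7)} (hy : y ≠ 0) : 0 < ∑ k, |y k| := by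
  by_contra hcon
  apply hy
  ext k
  have h1 : ∑ k, |y k| = 0 := le_antisymm (not_lt.1 hcon) (sum_nonneg fun _ _ => abs_nonneg _)
  rw [sum_eq_zero_iff_of_nonneg (fun _ _ => abs_nonneg _)] at h1
  exact abs_eq_zero.1 (h1 k (mem_univ _))

theorem not_both {x : Fin (n + n) → ℝ} (hx : x ∈ Re (cross n)) (k : Fin 7) :
    x (pp hn k) = 0 ∨ x (qq hn k) = 0 := by
  by_contra hcon
  push Not at hcon
  have h1 := hx.2.2.2.2 _ (mem_sup.2 hcon.1)
  rw [io_pp] at h1
  exact h1 (mem_sup.2 hcon.2)

theorem out_zero {x : Fin (n + n) → ℝ} (hx : x ∈ Re (cross n)) (i : Fin (n + n))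
    (h : ¬ ((i : ℕ) < 7 ∨ (n ≤ (i : ℕ) ∧ (i : ℕ) < n + 7))) : x i = 0 := by
  by_contra hcon
  exact h (hx.2.2.2.1 i (mem_sup.2 hcon))

theorem co_abs {x : Fin (n + n) → ℝ} (hx : x ∈ Re (cross n)) : ∑ k, |co hn x k| = 1 := by
  rw [← hx.2.1, sum_pq hn (out_zero hx)]
  apply sum_congr rfl
  intro k _
  rw [co_apply]
  have h1 := hx.1 (pp hn k)
  have h2 := hx.1 (qq hn k)
  rcases not_both hn hx k with h | h
  · rw [h, zero_sub, abs_neg, abs_of_nonneg h2, zero_add]
  · rw [h, sub_zero, abs_of_nonneg h1, add_zero]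

theorem co_ne {x : Fin (n + n) → ℝ} (hx : x ∈ Re (cross n)) : co hn x ≠ 0 := by
  intro h
  have := co_abs hn hx
  rw [h] at this
  simp at this

include hn in
theorem oc_mem {y : EuclideanSpace ℝ (Fin 7)} (hy : y ≠ 0) : oc (n := n) y ∈ Re (cross n) := by
  have hs := l1_pos hy
  refine ⟨?_, ?_, ?_, ?_, ?_⟩
  · intro i
    unfold oc
    split_ifs
    · positivity
    · positivity
    · exact le_rfl
  · rw [sum_pq hn (oc_out y)]
    have : ∀ k, oc (n := n) y (pp hn k) + oc (n := n) y (qq hn k) = |y k| / ∑ k, |y k| := by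
      intro k
      rw [oc_pp, oc_qq, ← add_div]
      congr 1
      rcases le_total 0 (y k) with h | h
      · rw [max_eq_left h, max_eq_right (by linarith), add_zero, abs_of_nonneg h]
      · rw [max_eq_right h, max_eq_left (by linarith), zero_add, abs_of_nonpos h]
    rw [sum_congr rfl (fun k _ => this k), ← sum_div, div_self hs.ne']
  · by_contra hcon
    rw [not_nonempty_iff_eq_empty] at hcon
    apply hy
    ext k
    have h1 : pp hn k ∉ sup (oc (n := n) y) := by rw [hcon]; exact notMem_empty _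
    have h2 : qq hn k ∉ sup (oc (n := n) y) := by rw [hcon]; exact notMem_empty _
    rw [mem_sup, not_not, oc_pp, div_eq_zero_iff] at h1
    rw [mem_sup, not_not, oc_qq, div_eq_zero_iff] at h2
    have h3 : max (y k) 0 = 0 := h1.resolve_right hs.ne'
    have h4 : max (-(y k)) 0 = 0 := h2.resolve_right hs.ne'
    have h5 := max_eq_right_iff.1 h3
    have h6 := max_eq_right_iff.1 h4
    have : y k = 0 := by linarith
    exact this
  · intro i hi
    by_contra hcon
    exact mem_sup.1 hi (oc_out y i hcon)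
  · have key : ∀ k, pp hn k ∈ sup (oc (n := n) y) → qq hn k ∉ sup (oc (n := n) y) := by
      intro k h1 h2
      rw [mem_sup, oc_pp] at h1
      rw [mem_sup, oc_qq] at h2
      have h3 : 0 < y k := by
        by_contra hc
        rw [max_eq_right (not_lt.1 hc)] at h1
        simp at h1
      rw [max_eq_right (by linarith)] at h2
      simp at h2
    intro i hi hi'
    by_cases h7 : (i : ℕ) < 7
    · have e : i = pp hn ⟨i, h7⟩ := rfl
      rw [e] at hi hi'
      rw [io_pp] at hi'
      exact key _ hi hi'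
    · by_cases h8 : n ≤ (i : ℕ) ∧ (i : ℕ) < n + 7
      · have e : i = qq hn ⟨i - n, by omega⟩ := by
          apply Fin.ext
          change (i : ℕ) = i - n + n
          omega
        rw [e] at hi hi'
        rw [io_qq] at hi'
        exact key _ hi' hi
      · exact mem_sup.1 hi (oc_out y i (by tauto))

theorem oc_co {x : Fin (n + n) → ℝ} (hx : x ∈ Re (cross n)) :
    oc (n := n) ((‖co hn x‖)⁻¹ • co hn x) = x := by
  have hne := norm_pos_iff.2 (co_ne hn hx)
  have hinv : 0 < (‖co hn x‖)⁻¹ := by positivity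
  have hsum : ∑ k, |((‖co hn x‖)⁻¹ • co hn x) k| = (‖co hn x‖)⁻¹ := by
    have : ∀ k, |((‖co hn x‖)⁻¹ • co hn x) k| = (‖co hn x‖)⁻¹ * |co hn x k| := by
      intro k
      rw [PiLp.smul_apply, smul_eq_mul, abs_mul, abs_of_pos hinv]
    rw [sum_congr rfl (fun k _ => this k), ← mul_sum, co_abs hn hx, mul_one]
  have hmax : ∀ z : ℝ, max ((‖co hn x‖)⁻¹ * z) 0 / (‖co hn x‖)⁻¹ = max z 0 := by
    intro z
    rw [div_eq_iff hinv.ne']
    rcases le_total 0 z with h | h
    · rw [max_eq_left h, max_eq_left (by positivity)]; ring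
    · rw [max_eq_right h, max_eq_right (mul_nonpos_of_nonneg_of_nonpos hinv.le h)]; ring
  funext i
  by_cases h7 : (i : ℕ) < 7
  · have e : i = pp hn ⟨i, h7⟩ := rfl
    rw [e, oc_pp, hsum, PiLp.smul_apply, smul_eq_mul, hmax, co_apply]
    have h1 := hx.1 (pp hn ⟨i, h7⟩)
    have h2 := hx.1 (qq hn ⟨i, h7⟩)
    rcases not_both hn hx ⟨i, h7⟩ with h | h
    · rw [h]
      rw [max_eq_right (by linarith)]
    · rw [h, sub_zero, max_eq_left h1]
  · by_cases h8 : n ≤ (i : ℕ) ∧ (i : ℕ) < n + 7
    · have e : i = qq hn ⟨i - n, by omega⟩ := by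
        apply Fin.ext
        change (i : ℕ) = i - n + n
        omega
      rw [e, oc_qq, hsum, PiLp.smul_apply, smul_eq_mul, ← mul_neg, hmax, co_apply]
      have h1 := hx.1 (pp hn ⟨i - n, by omega⟩)
      have h2 := hx.1 (qq hn ⟨i - n, by omega⟩)
      rcases not_both hn hx ⟨i - n, by omega⟩ with h | h
      · rw [h, zero_sub, neg_neg, max_eq_left h2]
      · rw [h, max_eq_right (by linarith)]
    · rw [oc_out _ i (by tauto), out_zero hx i (by tauto)]

theorem co_oc {y : EuclideanSpace ℝ (Fin 7)} (hy : ‖y‖ = 1) :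
    (‖co hn (oc (n := n) y)‖)⁻¹ • co hn (oc (n := n) y) = y := by
  have hy0 : y ≠ 0 := by
    intro h; rw [h] at hy; simp at hy
  have hs := l1_pos hy0
  have e : co hn (oc (n := n) y) = (∑ k, |y k|)⁻¹ • y := by
    ext k
    rw [co_apply, oc_pp, oc_qq, PiLp.smul_apply, smul_eq_mul, ← sub_div, div_eq_inv_mul]
    congr 1
    rcases le_total 0 (y k) with h | h
    · rw [max_eq_left h, max_eq_right (by linarith), sub_zero]
    · rw [max_eq_right h, max_eq_left (by linarith)]; ring
  rw [e, norm_smul, hy, mul_one, Real.norm_eq_abs, abs_of_pos (by positivity), inv_inv, smul_smul,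
    mul_inv_cancel₀ hs.ne', one_smul]

theorem co_cont : Continuous (co hn) := by
  unfold co
  exact (PiLp.continuous_toLp 2 _).comp (by fun_prop)

theorem oc_contOn : ContinuousOn (oc (n := n)) {y | y ≠ 0} := by
  apply continuousOn_pi.2
  intro i
  unfold oc
  have hs : ContinuousOn (fun y : EuclideanSpace ℝ (Fin 7) => ∑ k, |y k|) {y | y ≠ 0} := by
    apply Continuous.continuousOn
    fun_prop
  split_ifs with h1 h2
  · apply ContinuousOn.div _ hs (fun y hy => (l1_pos hy).ne')
    apply Continuous.continuousOn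
    fun_prop
  · apply ContinuousOn.div _ hs (fun y hy => (l1_pos hy).ne')
    apply Continuous.continuousOn
    fun_prop
  · exact continuousOn_const

include hn in
theorem good_cross : Good (io n) (cross n) := by
  let e : Re (cross n) ≃ₜ Metric.sphere (0 : EuclideanSpace ℝ (Fin 7)) 1 :=
    { toFun := fun x => ⟨(‖co hn x.1‖)⁻¹ • co hn x.1, by
        have := norm_pos_iff.2 (co_ne hn x.2)
        rw [mem_sphere_zero_iff_norm, norm_smul, norm_inv, norm_norm, inv_mul_cancel₀ this.ne']⟩
      invFun := fun y => ⟨oc y.1, oc_mem hn (by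
        intro h
        have := y.2
        rw [h] at this
        simp at this)⟩
      left_inv := fun x => Subtype.ext (oc_co hn x.2)
      right_inv := fun y => Subtype.ext (co_oc hn (mem_sphere_zero_iff_norm.1 y.2))
      continuous_toFun := by
        apply Continuous.subtype_mk
        have h1 : Continuous (fun x : Re (cross n) => co hn x.1) :=
          (co_cont hn).comp continuous_subtype_val
        exact (h1.norm.inv₀ (fun x => (norm_pos_iff.2 (co_ne hn x.2)).ne')).smul h1
      continuous_invFun := by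
        apply Continuous.subtype_mk
        apply (oc_contOn (n := n)).comp_continuous continuous_subtype_val
        intro y h
        have := y.2
        rw [h] at this
        simp at this }
  refine ⟨e, ?_⟩
  intro x y hxy
  change (‖co hn y.1‖)⁻¹ • co hn y.1 = -((‖co hn x.1‖)⁻¹ • co hn x.1)
  have h1 : co hn y.1 = - co hn x.1 := by
    ext k
    rw [PiLp.neg_apply, co_apply, co_apply, hxy]
    simp only [Function.comp]
    rw [io_pp, io_qq]
    ring
  rw [h1, norm_neg, smul_neg]

theorem sym_cross : Sym (io n) (cross n) := by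
  rintro F ⟨h1, h2, h3⟩
  refine ⟨h1.image _, ?_, ?_⟩
  · intro i hi
    rw [mem_image_io (io_inv n)] at hi
    have h4 := h2 _ hi
    unfold io at h4
    have := i.2
    split_ifs at h4 with h5
    · simp at h4; omega
    · simp at h4; omega
  · intro i hi hi'
    rw [mem_image_io (io_inv n)] at hi hi'
    exact h3 _ hi hi'

end

end Pool.Agent.V11201.RP
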