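import Pool.Agent.V11201.RP.Flip

set_option autoImplicit false
set_option linter.unusedSectionVars false
open Finset

namespace Pool.Agent.V11201.RP

/-- the entries at the positions of a mask -/
noncomputable def sel (l : List ℕ) : ℕ → List ℕ :=
  List.rec (motive := fun _ => ℕ → List ℕ) (fun _ => [])
    (fun x _ ih α => Bool.rec (x :: ih (Nat.div α 2)) (ih (Nat.div α 2)) (Nat.beq (Nat.mod α 2) 0)) l

/-- and of a list with a start value -/
noncomputable def andf (l : List ℕ) : ℕ → ℕ :=
  List.rec (motive := fun _ => ℕ → ℕ) (fun r => r) (fun x _ ih r => ih (Nat.land r x)) l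

/-- and of a nonempty list; the value at the empty list is one -/
noncomputable def and1 (l : List ℕ) : ℕ :=
  List.rec (motive := fun _ => ℕ) 1 (fun x xs _ => andf xs x) l

/-- all the ands with one omitted entry are nonzero -/
noncomputable def c3 (l : List ℕ) : ℕ → Bool :=
  List.rec (motive := fun _ => ℕ → Bool) (fun _ => true)
    (fun x xs ih R => Bool.rec (ih (Nat.land R x)) false (Nat.beq (andf xs R) 0)) l

/-- the digits of a number, as many as the entries of the list -/
noncomputable def digs (l : List ℕ) : ℕ → List ℕ :=
  List.rec (motive := fun _ => ℕ → List ℕ) (fun _ => [])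
    (fun _ _ ih J => Nat.mod J 16384 :: ih (Nat.div J 16384)) l

/-- strictly increasing, starting at least at `p` -/
noncomputable def incr (l : List ℕ) : ℕ → Bool :=
  List.rec (motive := fun _ => ℕ → Bool) (fun _ => true)
    (fun j _ ih p => Bool.rec false (ih (Nat.succ j)) (Nat.ble p j)) l

/-- the sum of the powers of two -/
noncomputable def pows (l : List ℕ) : ℕ :=
  List.rec (motive := fun _ => ℕ) 0 (fun j _ ih => Nat.lor (Nat.pow 2 j) ih) l

/-- the update; the list is truncated if a check fails -/
noncomputable def upd (R T Q : ℕ) (l : List ℕ) : ℕ → ℕ → List ℕ → List ℕ :=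
  List.rec (motive := fun _ => ℕ → ℕ → List ℕ → List ℕ) (fun _ _ _ => [])
    (fun x _ ih α β js =>
      Bool.rec
        -- in the first set
        (List.rec (motive := fun _ => List ℕ) []
          (fun j js' _ => Bool.rec []
            (Nat.lor (Nat.xor x (Nat.land x R)) (Nat.xor T (Nat.pow 2 j)) ::
              ih (Nat.div α 2) (Nat.div β 2) js')
            (Nat.beq (Nat.land (Nat.xor x (Nat.land x R)) T) 0)) js)
        (Bool.rec
          -- in the second set
          (Bool.rec []
            (Nat.lor (Nat.xor x (Nat.land x R)) T :: ih (Nat.div α 2) (Nat.div β 2) js)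
            (Nat.beq (Nat.land (Nat.xor x (Nat.land x R)) T) 0))
          -- in none
          (Bool.rec [] (x :: ih (Nat.div α 2) (Nat.div β 2) js) (Nat.beq (Nat.land x Q) 0))
          (Nat.beq (Nat.mod β 2) 0))
        (Nat.beq (Nat.mod α 2) 0)) l

/-- a flip on the state -/
noncomputable def stp (α β : ℕ) (js : List ℕ) (L : List ℕ) : List ℕ :=
  (fun (R T : ℕ) =>
    Bool.rec (motive := fun _ => List ℕ) []
      (Bool.rec (motive := fun _ => List ℕ) []
        (Bool.rec (motive := fun _ => List ℕ) []
          (Bool.rec (motive := fun _ => List ℕ) (upd R T (Nat.lor R T) L α β js) []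
            (Nat.beq T 0))
          (incr js 0))
        (c3 (sel L β) R))
      (Nat.beq (and1 (sel L β)) 0)) (and1 (sel L α)) (pows js)

/-- the family of faces of a state -/
def KK (m : ℕ) (L : List ℕ) : Set (Finset (Fin m)) :=
  {F | F.Nonempty ∧ ∃ j, ∀ i ∈ F, (L.getD i 0).testBit j = true}

/-- the set of a mask -/
def ms (m α : ℕ) : Finset (Fin m) := univ.filter (fun i => α.testBit i = true)

theorem mem_ms {m α : ℕ} {i : Fin m} : i ∈ ms m α ↔ α.testBit i = true := by simp [ms]

theorem nbeq (a b : ℕ) : Nat.beq a b = true ↔ a = b :=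
  ⟨Nat.eq_of_beq_eq_true, fun h => h ▸ Nat.beq_refl a⟩

theorem tb0 (α : ℕ) : α.testBit 0 = true ↔ ¬ (Nat.beq (Nat.mod α 2) 0 = true) := by
  rw [Nat.testBit_zero, nbeq]
  change decide (α % 2 = 1) = true ↔ ¬ (α % 2 = 0)
  rw [decide_eq_true_iff]
  omega

theorem tbs (α i : ℕ) : α.testBit (i + 1) = (Nat.div α 2).testBit i := by
  rw [Nat.testBit_add_one]; rfl

theorem sel_cons (x : ℕ) (l : List ℕ) (α : ℕ) : sel (x :: l) α =
    if α.testBit 0 = true then x :: sel l (Nat.div α 2) else sel l (Nat.div α 2) := by
  change (Bool.rec (motive := fun _ => List ℕ) (x :: sel l (Nat.div α 2)) (sel l (Nat.div α 2))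
    (Nat.beq (Nat.mod α 2) 0)) = _
  by_cases h : α.testBit 0 = true
  · rw [if_pos h]
    rw [tb0, Bool.not_eq_true] at h
    rw [h]
  · rw [if_neg h]
    rw [tb0, not_not] at h
    rw [h]

theorem mem_sel {l : List ℕ} {α y : ℕ} :
    y ∈ sel l α ↔ ∃ i, i < l.length ∧ α.testBit i = true ∧ l.getD i 0 = y := by
  induction l generalizing α with
  | nil =>
    change y ∈ [] ↔ _
    simp
  | cons x l ih =>
    rw [sel_cons]
    by_cases h : α.testBit 0 = true
    · rw [if_pos h, List.mem_cons, ih]
      constructor
      · rintro (rfl | ⟨i, h1, h2, h3⟩)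
        · exact ⟨0, by simp, h, by simp⟩
        · exact ⟨i + 1, by simpa using h1, by rw [tbs]; exact h2, by simpa using h3⟩
      · rintro ⟨i, h1, h2, h3⟩
        cases i with
        | zero => left; simpa using h3.symm
        | succ i =>
          right
          exact ⟨i, by simpa using h1, by rw [← tbs]; exact h2, by simpa using h3⟩
    · rw [if_neg h, ih]
      constructor
      · rintro ⟨i, h1, h2, h3⟩
        exact ⟨i + 1, by simpa using h1, by rw [tbs]; exact h2, by simpa using h3⟩
      · rintro ⟨i, h1, h2, h3⟩
        cases i with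
        | zero => exact absurd h2 h
        | succ i =>
          exact ⟨i, by simpa using h1, by rw [← tbs]; exact h2, by simpa using h3⟩

theorem andf_tb (l : List ℕ) (r j : ℕ) : (andf l r).testBit j = true ↔
    r.testBit j = true ∧ ∀ x ∈ l, x.testBit j = true := by
  induction l generalizing r with
  | nil => change r.testBit j = true ↔ _; simp
  | cons x l ih =>
    change (andf l (Nat.land r x)).testBit j = true ↔ _
    rw [ih]
    have : (Nat.land r x).testBit j = (r.testBit j && x.testBit j) := Nat.testBit_and r x j
    rw [this, Bool.and_eq_true]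
    simp only [List.mem_cons, forall_eq_or_imp]
    tauto

theorem and1_tb {l : List ℕ} (hl : l ≠ []) (j : ℕ) : (and1 l).testBit j = true ↔
    ∀ x ∈ l, x.testBit j = true := by
  cases l with
  | nil => exact absurd rfl hl
  | cons x l =>
    change (andf l x).testBit j = true ↔ _
    rw [andf_tb]
    simp

theorem beq_zero {x : ℕ} : Nat.beq x 0 = true ↔ ∀ j, x.testBit j = false := by
  rw [nbeq]
  constructor
  · rintro rfl j; simp
  · intro h
    apply Nat.eq_of_testBit_eq
    intro j
    rw [h j]; simp

theorem beq_not_zero {x : ℕ} : Nat.beq x 0 = false ↔ ∃ j, x.testBit j = true := by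
  have := beq_zero (x := x)
  constructor
  · intro h
    by_contra hcon
    push Not at hcon
    have h2 := this.2 (fun j => by simpa using hcon j)
    rw [h] at h2
    exact Bool.false_ne_true h2
  · rintro ⟨j, hj⟩
    by_contra hcon
    rw [Bool.not_eq_false] at hcon
    rw [this.1 hcon j] at hj
    exact Bool.false_ne_true hj

theorem c3_spec {l : List ℕ} {β R : ℕ} (h : c3 (sel l β) R = true) :
    ∀ i, i < l.length → β.testBit i = true → ∃ j, R.testBit j = true ∧
      ∀ i', i' < l.length → β.testBit i' = true → i' ≠ i → (l.getD i' 0).testBit j = true := by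
  induction l generalizing β R with
  | nil => intro i hi; simp at hi
  | cons x l ih =>
    rw [sel_cons] at h
    by_cases hb : β.testBit 0 = true
    · rw [if_pos hb] at h
      change (Bool.rec (c3 (sel l (Nat.div β 2)) (Nat.land R x)) false
        (Nat.beq (andf (sel l (Nat.div β 2)) R) 0) : Bool) = true at h
      cases hz : Nat.beq (andf (sel l (Nat.div β 2)) R) 0 with
      | true => rw [hz] at h; exact absurd h Bool.false_ne_true
      | false =>
        rw [hz] at h
        change c3 (sel l (Nat.div β 2)) (Nat.land R x) = true at h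
        intro i hi hbi
        cases i with
        | zero =>
          obtain ⟨j, hj⟩ := beq_not_zero.1 hz
          rw [andf_tb] at hj
          refine ⟨j, hj.1, ?_⟩
          intro i' hi' hbi' hne
          cases i' with
          | zero => exact absurd rfl hne
          | succ i' =>
            apply hj.2
            rw [mem_sel]
            exact ⟨i', by simpa using hi', by rw [← tbs]; exact hbi', by simp⟩
        | succ i =>
          obtain ⟨j, hj1, hj2⟩ := ih h i (by simpa using hi) (by rw [← tbs]; exact hbi)
          have e : (Nat.land R x).testBit j = (R.testBit j && x.testBit j) := Nat.testBit_and R x j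
          rw [e, Bool.and_eq_true] at hj1
          refine ⟨j, hj1.1, ?_⟩
          intro i' hi' hbi' hne
          cases i' with
          | zero => simpa using hj1.2
          | succ i' =>
            have := hj2 i' (by simpa using hi') (by rw [← tbs]; exact hbi') (fun h => hne (by rw [h]))
            simpa using this
    · rw [if_neg hb] at h
      intro i hi hbi
      cases i with
      | zero => exact absurd hbi hb
      | succ i =>
        obtain ⟨j, hj1, hj2⟩ := ih h i (by simpa using hi) (by rw [← tbs]; exact hbi)
        refine ⟨j, hj1, ?_⟩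
        intro i' hi' hbi' hne
        cases i' with
        | zero => exact absurd hbi' hb
        | succ i' =>
          have := hj2 i' (by simpa using hi') (by rw [← tbs]; exact hbi') (fun h => hne (by rw [h]))
          simpa using this

theorem pows_tb (l : List ℕ) (j : ℕ) : (pows l).testBit j = true ↔ j ∈ l := by
  induction l with
  | nil => change (0 : ℕ).testBit j = true ↔ _; simp
  | cons x l ih =>
    change (Nat.lor (Nat.pow 2 x) (pows l)).testBit j = true ↔ _
    have : (Nat.lor (Nat.pow 2 x) (pows l)).testBit j = ((2 ^ x).testBit j || (pows l).testBit j) :=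
      Nat.testBit_or _ _ j
    rw [this, Bool.or_eq_true, ih, Nat.testBit_two_pow, List.mem_cons, decide_eq_true_iff, eq_comm]

theorem incr_spec {l : List ℕ} {p : ℕ} (h : incr l p = true) : l.Nodup ∧ ∀ j ∈ l, p ≤ j := by
  induction l generalizing p with
  | nil => simp
  | cons x l ih =>
    change (Bool.rec false (incr l (Nat.succ x)) (Nat.ble p x) : Bool) = true at h
    cases hz : Nat.ble p x with
    | false => rw [hz] at h; exact absurd h Bool.false_ne_true
    | true =>
      rw [hz] at h
      change incr l (Nat.succ x) = true at h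
      obtain ⟨h1, h2⟩ := ih h
      have h3 : p ≤ x := Nat.le_of_ble_eq_true hz
      refine ⟨List.nodup_cons.2 ⟨fun hx => ?_, h1⟩, ?_⟩
      · have := h2 x hx
        omega
      · intro j hj
        rcases List.mem_cons.1 hj with rfl | hj
        · exact h3
        · have := h2 j hj
          omega

theorem upd_cons (R T Q x : ℕ) (l : List ℕ) (α β : ℕ) (js : List ℕ) :
    upd R T Q (x :: l) α β js =
    if α.testBit 0 = true then
      (match js with
        | [] => []
        | j :: js' => if (x ^^^ (x &&& R)) &&& T = 0 then
            ((x ^^^ (x &&& R)) ||| (T ^^^ 2 ^ j)) :: upd R T Q l (Nat.div α 2) (Nat.div β 2) js'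
            else [])
    else if β.testBit 0 = true then
      (if (x ^^^ (x &&& R)) &&& T = 0 then
        ((x ^^^ (x &&& R)) ||| T) :: upd R T Q l (Nat.div α 2) (Nat.div β 2) js else [])
    else (if x &&& Q = 0 then x :: upd R T Q l (Nat.div α 2) (Nat.div β 2) js else []) := by
  have q1 : ∀ (y : ℕ) (a b : List ℕ), (Bool.rec (motive := fun _ => List ℕ) a b (Nat.beq y 0)) =
      if y = 0 then b else a := by
    intro y a b
    by_cases h : y = 0
    · rw [if_pos h, (nbeq y 0).2 h]
    · rw [if_neg h]
      have : Nat.beq y 0 = false := by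
        rw [← Bool.not_eq_true, nbeq]; exact h
      rw [this]
  have q2 : ∀ (α : ℕ) (a b : List ℕ), (Bool.rec (motive := fun _ => List ℕ) a b
      (Nat.beq (Nat.mod α 2) 0)) = if α.testBit 0 = true then a else b := by
    intro α a b
    rw [q1]
    by_cases h : α.testBit 0 = true
    · rw [if_pos h]
      rw [tb0, nbeq] at h
      rw [if_neg h]
    · rw [if_neg h]
      rw [tb0, not_not, nbeq] at h
      rw [if_pos h]
  change (Bool.rec (motive := fun _ => List ℕ) _ _ (Nat.beq (Nat.mod α 2) 0)) = _
  rw [q2]
  congr 1
  · cases js with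
    | nil => rfl
    | cons j js' => exact q1 _ _ _
  · rw [q2]
    congr 1
    · exact q1 _ _ _
    · exact q1 _ _ _

theorem upd_le (R T Q : ℕ) (l : List ℕ) (α β : ℕ) (js : List ℕ) :
    (upd R T Q l α β js).length ≤ l.length := by
  induction l generalizing α β js with
  | nil => exact le_rfl
  | cons x l ih =>
    rw [upd_cons]
    by_cases h1 : α.testBit 0 = true
    · rw [if_pos h1]
      cases js with
      | nil => simp
      | cons j js' =>
        dsimp only
        split_ifs
        · simpa using ih _ _ _
        · simp
    · rw [if_neg h1]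
      split_ifs
      · simpa using ih _ _ _
      · simp
      · simpa using ih _ _ _
      · simp

/-- the meaning of an update at one entry -/
def Ent (R T Q : ℕ) (t : ℕ → ℕ) (α β i x y : ℕ) : Prop :=
  (α.testBit i = true → (x ^^^ (x &&& R)) &&& T = 0 ∧
    y = (x ^^^ (x &&& R)) ||| (T ^^^ 2 ^ (t i))) ∧
  (¬ α.testBit i = true → β.testBit i = true → (x ^^^ (x &&& R)) &&& T = 0 ∧
    y = (x ^^^ (x &&& R)) ||| T) ∧
  (¬ α.testBit i = true → ¬ β.testBit i = true → x &&& Q = 0 ∧ y = x)

theorem upd_spec (R T Q : ℕ) (l : List ℕ) (α β : ℕ) (js : List ℕ)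
    (h : (upd R T Q l α β js).length = l.length) (hjs : js.length = (sel l α).length)
    (hn : js.Nodup) :
    ∃ t : ℕ → ℕ, (∀ i < l.length, α.testBit i = true → t i ∈ js) ∧
      (∀ i < l.length, ∀ i' < l.length, α.testBit i = true → α.testBit i' = true →
        t i = t i' → i = i') ∧
      (∀ j ∈ js, ∃ i < l.length, α.testBit i = true ∧ t i = j) ∧
      ∀ i < l.length, Ent R T Q t α β i (l.getD i 0) ((upd R T Q l α β js).getD i 0) := by
  induction l generalizing α β js with
  | nil =>
    refine ⟨fun _ => 0, by simp, by simp, ?_, by simp⟩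
    intro j hj
    have : js.length = 0 := hjs
    rw [List.length_eq_zero_iff] at this
    rw [this] at hj
    simp at hj
  | cons x l ih =>
    rw [sel_cons] at hjs
    rw [upd_cons] at h
    rw [upd_cons]
    by_cases ha : α.testBit 0 = true
    · simp only [ha, if_true] at h hjs ⊢
      cases js with
      | nil => simp at h
      | cons j js' =>
        dsimp only at h ⊢
        by_cases hx : (x ^^^ (x &&& R)) &&& T = 0
        · simp only [hx, if_true, List.length_cons, add_left_inj] at h ⊢
          simp only [List.length_cons, add_left_inj] at hjs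
          obtain ⟨hn1, hn2⟩ := List.nodup_cons.1 hn
          obtain ⟨t, t1, t2, t3, t4⟩ := ih _ _ _ h hjs hn2
          refine ⟨fun i => Nat.casesOn i j t, ?_, ?_, ?_, ?_⟩
          · intro i hi hai
            cases i with
            | zero => simp
            | succ i => exact List.mem_cons_of_mem _ (t1 i (by omega) (by rw [← tbs]; exact hai))
          · intro i hi i' hi' hai hai' hii
            cases i with
            | zero =>
              cases i' with
              | zero => rfl
              | succ i' =>
                exfalso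
                apply hn1
                have e : j = t i' := hii
                rw [e]
                exact t1 i' (by omega) (by rw [← tbs]; exact hai')
            | succ i =>
              cases i' with
              | zero =>
                exfalso
                apply hn1
                have e : t i = j := hii
                rw [← e]
                exact t1 i (by omega) (by rw [← tbs]; exact hai)
              | succ i' =>
                have e : t i = t i' := hii
                rw [t2 i (by omega) i' (by omega) (by rw [← tbs]; exact hai)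
                  (by rw [← tbs]; exact hai') e]
          · intro j' hj'
            rcases List.mem_cons.1 hj' with rfl | hj'
            · exact ⟨0, by omega, ha, rfl⟩
            · obtain ⟨i, hi, hi1, hi2⟩ := t3 j' hj'
              exact ⟨i + 1, by omega, by rw [tbs]; exact hi1, hi2⟩
          · intro i hi
            cases i with
            | zero =>
              refine ⟨fun _ => ?_, fun h' => absurd ha h', fun h' => absurd ha h'⟩
              exact ⟨by simpa using hx, by simp⟩
            | succ i =>
              have := t4 i (by omega)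
              unfold Ent at this ⊢
              rw [tbs, tbs]
              simpa using this
        · simp [hx] at h
    · by_cases hb : β.testBit 0 = true
      · simp only [ha, hb, if_true] at h hjs ⊢
        rw [if_neg (by simp)] at h hjs ⊢
        by_cases hx : (x ^^^ (x &&& R)) &&& T = 0
        · simp only [hx, if_true, List.length_cons, add_left_inj] at h ⊢
          obtain ⟨t, t1, t2, t3, t4⟩ := ih _ _ _ h hjs hn
          refine ⟨fun i => Nat.casesOn i 0 t, ?_, ?_, ?_, ?_⟩
          · intro i hi hai
            cases i with
            | zero => exact absurd hai ha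
            | succ i => exact t1 i (by omega) (by rw [← tbs]; exact hai)
          · intro i hi i' hi' hai hai' hii
            cases i with
            | zero => exact absurd hai ha
            | succ i =>
              cases i' with
              | zero => exact absurd hai' ha
              | succ i' =>
                have e : t i = t i' := hii
                rw [t2 i (by omega) i' (by omega) (by rw [← tbs]; exact hai)
                  (by rw [← tbs]; exact hai') e]
          · intro j' hj'
            obtain ⟨i, hi, hi1, hi2⟩ := t3 j' hj'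
            exact ⟨i + 1, by omega, by rw [tbs]; exact hi1, hi2⟩
          · intro i hi
            cases i with
            | zero =>
              refine ⟨fun h' => absurd h' ha, fun _ _ => ?_, fun _ h' => absurd hb h'⟩
              exact ⟨by simpa using hx, by simp⟩
            | succ i =>
              have := t4 i (by omega)
              unfold Ent at this ⊢
              rw [tbs, tbs]
              simpa using this
        · simp [hx] at h
      · simp only [ha, hb] at h hjs ⊢
        rw [if_neg (by simp)] at h hjs ⊢
        rw [if_neg (by simp)] at h ⊢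
        by_cases hx : x &&& Q = 0
        · simp only [hx, if_true, List.length_cons, add_left_inj] at h ⊢
          obtain ⟨t, t1, t2, t3, t4⟩ := ih _ _ _ h hjs hn
          refine ⟨fun i => Nat.casesOn i 0 t, ?_, ?_, ?_, ?_⟩
          · intro i hi hai
            cases i with
            | zero => exact absurd hai ha
            | succ i => exact t1 i (by omega) (by rw [← tbs]; exact hai)
          · intro i hi i' hi' hai hai' hii
            cases i with
            | zero => exact absurd hai ha
            | succ i =>
              cases i' with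
              | zero => exact absurd hai' ha
              | succ i' =>
                have e : t i = t i' := hii
                rw [t2 i (by omega) i' (by omega) (by rw [← tbs]; exact hai)
                  (by rw [← tbs]; exact hai') e]
          · intro j' hj'
            obtain ⟨i, hi, hi1, hi2⟩ := t3 j' hj'
            exact ⟨i + 1, by omega, by rw [tbs]; exact hi1, hi2⟩
          · intro i hi
            cases i with
            | zero =>
              refine ⟨fun h' => absurd h' ha, fun _ h' => absurd h' hb, fun _ _ => ?_⟩
              exact ⟨by simpa using hx, by simp⟩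
            | succ i =>
              have := t4 i (by omega)
              unfold Ent at this ⊢
              rw [tbs, tbs]
              simpa using this
        · simp [hx] at h

theorem ent_tb {R T Q : ℕ} {t : ℕ → ℕ} {α β i x y : ℕ} (h : Ent R T Q t α β i x y)
    (hQ : Q = R ||| T) (hti : α.testBit i = true → T.testBit (t i) = true) (j : ℕ) :
    y.testBit j = true ↔ (x.testBit j = true ∧ ¬ R.testBit j = true ∧ ¬ T.testBit j = true) ∨
      (T.testBit j = true ∧ ((α.testBit i = true ∧ j ≠ t i) ∨
        (¬ α.testBit i = true ∧ β.testBit i = true))) := by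
  have hz : ∀ {z w : ℕ}, z &&& w = 0 → z.testBit j = true → ¬ w.testBit j = true := by
    intro z w hzw h1 h2
    have := congrArg (fun n => n.testBit j) hzw
    simp [h1, h2] at this
  have h0 : (x ^^^ (x &&& R)).testBit j = true ↔ (x.testBit j = true ∧ ¬ R.testBit j = true) := by
    rw [Nat.testBit_xor, Nat.testBit_and]
    cases x.testBit j <;> cases R.testBit j <;> simp
  obtain ⟨hA, hB, hC⟩ := h
  by_cases ha : α.testBit i = true
  · obtain ⟨h1, rfl⟩ := hA ha
    have h2 := hti ha
    rw [Nat.testBit_or, Bool.or_eq_true, h0, Nat.testBit_xor, Nat.testBit_two_pow]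
    have h3 : (x.testBit j = true ∧ ¬ R.testBit j = true) → ¬ T.testBit j = true :=
      fun h => hz h1 (h0.2 h)
    constructor
    · rintro (h | h)
      · exact Or.inl ⟨h.1, h.2, h3 h⟩
      · right
        by_cases hj : t i = j
        · subst hj
          rw [h2] at h
          simp at h
        · simp only [hj, decide_false, Bool.xor_false] at h
          exact ⟨h, Or.inl ⟨ha, fun h => hj h.symm⟩⟩
    · rintro (h | ⟨h, ⟨-, h4⟩ | ⟨h4, -⟩⟩)
      · exact Or.inl ⟨h.1, h.2.1⟩
      · right
        have : ¬ t i = j := fun h => h4 h.symm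
        simp [h, this]
      · exact absurd ha h4
  · by_cases hb : β.testBit i = true
    · obtain ⟨h1, rfl⟩ := hB ha hb
      have h3 : (x.testBit j = true ∧ ¬ R.testBit j = true) → ¬ T.testBit j = true :=
        fun h => hz h1 (h0.2 h)
      rw [Nat.testBit_or, Bool.or_eq_true, h0]
      constructor
      · rintro (h | h)
        · exact Or.inl ⟨h.1, h.2, h3 h⟩
        · exact Or.inr ⟨h, Or.inr ⟨ha, hb⟩⟩
      · rintro (h | ⟨h, -⟩)
        · exact Or.inl ⟨h.1, h.2.1⟩
        · exact Or.inr h
    · obtain ⟨h1, rfl⟩ := hC ha hb
      constructor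
      · intro h
        left
        have h2 := hz h1 h
        rw [hQ, Nat.testBit_or, Bool.or_eq_true, not_or] at h2
        exact ⟨h, h2.1, h2.2⟩
      · rintro (h | ⟨-, ⟨h, -⟩ | ⟨-, h⟩⟩)
        · exact h.1
        · exact absurd h ha
        · exact absurd h hb

theorem clr_tb {x R T : ℕ} (h : (x ^^^ (x &&& R)) &&& T = 0) {j : ℕ} (h1 : x.testBit j = true)
    (h2 : ¬ R.testBit j = true) : ¬ T.testBit j = true := by
  intro h3
  have := congrArg (fun n => n.testBit j) h
  simp [h1, h2, h3] at this

theorem stp_eq {α β : ℕ} {js L : List ℕ} {m : ℕ} (hm : 0 < m) (h : (stp α β js L).length = m) :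
    Nat.beq (and1 (sel L β)) 0 = true ∧ c3 (sel L β) (and1 (sel L α)) = true ∧ incr js 0 = true ∧
      Nat.beq (pows js) 0 = false ∧
      stp α β js L = upd (and1 (sel L α)) (pows js) (and1 (sel L α) ||| pows js) L α β js := by
  have e : stp α β js L = Bool.rec (motive := fun _ => List ℕ) []
      (Bool.rec (motive := fun _ => List ℕ) []
        (Bool.rec (motive := fun _ => List ℕ) []
          (Bool.rec (motive := fun _ => List ℕ) (upd (and1 (sel L α)) (pows js)
            (and1 (sel L α) ||| pows js) L α β js) [] (Nat.beq (pows js) 0))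
          (incr js 0))
        (c3 (sel L β) (and1 (sel L α))))
      (Nat.beq (and1 (sel L β)) 0) := rfl
  rw [e] at h ⊢
  cases h1 : Nat.beq (and1 (sel L β)) 0 with
  | false => rw [h1] at h; simp at h; omega
  | true =>
    rw [h1] at h
    cases h2 : c3 (sel L β) (and1 (sel L α)) with
    | false => rw [h2] at h; simp at h; omega
    | true =>
      rw [h2] at h
      cases h3 : incr js 0 with
      | false => rw [h3] at h; simp at h; omega
      | true =>
        rw [h3] at h
        cases h4 : Nat.beq (pows js) 0 with
        | true => rw [h4] at h; simp at h; omega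
        | false => exact ⟨rfl, rfl, rfl, rfl, rfl⟩

theorem stp_le {α β : ℕ} {js L : List ℕ} {m : ℕ} (hm : 0 < m) (h : (stp α β js L).length = m) :
    m ≤ L.length := by
  obtain ⟨-, -, -, -, h5⟩ := stp_eq hm h
  rw [← h, h5]
  exact upd_le _ _ _ _ _ _ _

theorem stp_spec {m : ℕ} (hm : 0 < m) {L : List ℕ} (hL : L.length = m) {α β : ℕ} {js : List ℕ}
    (hjs : js.length = (sel L α).length) (hd : α &&& β = 0)
    (h : (stp α β js L).length = m) :
    Fb (KK m L) (ms m α) (ms m β) ∧ KK m (stp α β js L) = fK (KK m L) (ms m α) (ms m β) := by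
  obtain ⟨h1, h2, h3, h4, h5⟩ := stp_eq hm h
  rw [h5] at h ⊢
  set R := and1 (sel L α) with hR
  set T := pows js with hT
  obtain ⟨h31, -⟩ := incr_spec h3
  obtain ⟨t, t1, t2, t3, t4⟩ := upd_spec R T (R ||| T) L α β js (h.trans hL.symm) hjs h31
  have hjn : js ≠ [] := by
    rintro rfl
    have : T = 0 := rfl
    rw [this] at h4
    exact absurd h4 (by decide)
  have hsA : sel L α ≠ [] := by
    intro hs
    rw [hs] at hjs
    exact hjn (List.length_eq_zero_iff.1 hjs)
  have hsB : sel L β ≠ [] := by
    intro hs
    rw [hs] at h1
    exact absurd h1 (by decide)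
  have hA : (ms m α).Nonempty := by
    obtain ⟨y, hy⟩ := List.exists_mem_of_ne_nil _ hsA
    obtain ⟨i, hi, hai, -⟩ := mem_sel.1 hy
    exact ⟨⟨i, by omega⟩, mem_ms.2 hai⟩
  have hB : (ms m β).Nonempty := by
    obtain ⟨y, hy⟩ := List.exists_mem_of_ne_nil _ hsB
    obtain ⟨i, hi, hai, -⟩ := mem_sel.1 hy
    exact ⟨⟨i, by omega⟩, mem_ms.2 hai⟩
  have hdis : ∀ i : ℕ, α.testBit i = true → ¬ β.testBit i = true := by
    intro i ha hb
    have := congrArg (fun n => n.testBit i) hd
    simp [ha, hb] at this
  have hRt : ∀ j, R.testBit j = true ↔ ∀ i : Fin m, α.testBit i = true →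
      (L.getD i 0).testBit j = true := by
    intro j
    rw [hR, and1_tb hsA]
    constructor
    · intro hh i hi
      exact hh _ (mem_sel.2 ⟨i, by have := i.2; omega, hi, rfl⟩)
    · intro hh y hy
      obtain ⟨i, hi, hai, rfl⟩ := mem_sel.1 hy
      exact hh ⟨i, by omega⟩ hai
  have hBt : ∀ j, ¬ ∀ i : Fin m, β.testBit i = true → (L.getD i 0).testBit j = true := by
    intro j hh
    have q := (beq_zero.1 h1) j
    have q2 : (and1 (sel L β)).testBit j = true := by
      rw [and1_tb hsB]
      intro y hy
      obtain ⟨i, hi, hai, rfl⟩ := mem_sel.1 hy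
      exact hh ⟨i, by omega⟩ hai
    rw [q] at q2
    exact Bool.false_ne_true q2
  have hout : ∀ i : Fin m, ¬ α.testBit i = true → ¬ β.testBit i = true → ∀ j,
      (L.getD i 0).testBit j = true → ¬ R.testBit j = true ∧ ¬ T.testBit j = true := by
    intro i ha hb j hj
    have q := ((t4 i (by have := i.2; omega)).2.2 ha hb).1
    have := congrArg (fun n => n.testBit j) q
    simp only [Nat.testBit_and, Nat.testBit_or, hj, Bool.true_and, Nat.zero_testBit,
      Bool.or_eq_false_iff] at this
    rw [this.1, this.2]
    simp
  have hfb : Fb (KK m L) (ms m α) (ms m β) := by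
    refine ⟨hA, hB, ?_, ?_, ?_, ?_, ?_⟩
    · rw [disjoint_left]
      intro i hi hi'
      exact hdis i (mem_ms.1 hi) (mem_ms.1 hi')
    · rintro F ⟨-, j, hj⟩ G hG hGn
      exact ⟨hGn, j, fun i hi => hj i (hG hi)⟩
    · rintro F ⟨-, j, hj⟩ hAF i hi
      by_contra hcon
      rw [mem_union, not_or, mem_ms, mem_ms] at hcon
      have q1 : R.testBit j = true := (hRt j).2 (fun i hi => hj i (hAF (mem_ms.2 hi)))
      exact (hout i hcon.1 hcon.2 j (hj i hi)).1 q1
    · intro b hb
      obtain ⟨j, hj1, hj2⟩ := c3_spec h2 b (by have := b.2; omega) (mem_ms.1 hb)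
      refine ⟨?_, j, ?_⟩
      · obtain ⟨a, ha⟩ := hA
        refine ⟨a, mem_erase.2 ⟨?_, mem_union_left _ ha⟩⟩
        rintro rfl
        exact hdis _ (mem_ms.1 ha) (mem_ms.1 hb)
      · intro i hi
        obtain ⟨hib, hi⟩ := mem_erase.1 hi
        rcases mem_union.1 hi with hi | hi
        · exact (hRt j).1 hj1 i (mem_ms.1 hi)
        · exact hj2 i (by have := i.2; omega) (mem_ms.1 hi) (fun hh => hib (Fin.ext hh))
    · rintro F ⟨-, j, hj⟩ hBF
      exact hBt j (fun i hi => hj i (hBF (mem_ms.2 hi)))
  refine ⟨hfb, ?_⟩
  have hnew : ∀ (i : Fin m) (j : ℕ), ((upd R T (R ||| T) L α β js).getD i 0).testBit j = true ↔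
      ((L.getD i 0).testBit j = true ∧ ¬ R.testBit j = true ∧ ¬ T.testBit j = true) ∨
      (T.testBit j = true ∧ ((α.testBit i = true ∧ j ≠ t i) ∨
        (¬ α.testBit i = true ∧ β.testBit i = true))) := by
    intro i j
    have hi : (i : ℕ) < L.length := by have := i.2; omega
    exact ent_tb (t4 i hi) rfl (fun ha => (pows_tb js _).2 (t1 i hi ha)) j
  have hnoT : ∀ (i : Fin m) (j : ℕ), (L.getD i 0).testBit j = true → ¬ R.testBit j = true →
      ¬ T.testBit j = true := by
    intro i j hj hRj hTj
    have hi : (i : ℕ) < L.length := by have := i.2; omega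
    obtain ⟨e1, e2, e3⟩ := t4 i hi
    by_cases ha : α.testBit i = true
    · exact clr_tb (e1 ha).1 hj hRj hTj
    · by_cases hb : β.testBit i = true
      · exact clr_tb (e2 ha hb).1 hj hRj hTj
      · exact (hout i ha hb j hj).2 hTj
  ext F
  constructor
  · rintro ⟨hF, j, hj⟩
    by_cases hTj : T.testBit j = true
    · obtain ⟨a, ha, haa, hta⟩ := t3 j ((pows_tb js j).1 hTj)
      have hFsub : ∀ i ∈ F, (α.testBit i = true ∧ (i : ℕ) ≠ a) ∨
          (¬ α.testBit i = true ∧ β.testBit i = true) := by
        intro i hi
        rcases (hnew i j).1 (hj i hi) with hh | ⟨-, hh | hh⟩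
        · exact absurd hTj hh.2.2
        · left
          refine ⟨hh.1, fun hia => hh.2 ?_⟩
          rw [← hta, hia]
        · exact Or.inr hh
      have hnA : ¬ ms m α ⊆ F := by
        intro hh
        have q : (⟨a, by omega⟩ : Fin m) ∈ F := hh (mem_ms.2 haa)
        rcases hFsub _ q with q | q
        · exact q.2 rfl
        · exact q.1 haa
      have hFu : F ⊆ ms m α ∪ ms m β := by
        intro i hi
        rw [mem_union, mem_ms, mem_ms]
        rcases hFsub i hi with q | q
        · exact Or.inl q.1
        · exact Or.inr q.2
      by_cases hBF : ms m β ⊆ F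
      · exact Or.inr ⟨hFu, hBF, hnA⟩
      · left
        obtain ⟨b, hb, hbF⟩ := not_subset.1 hBF
        refine ⟨hfb.down _ (hfb.full b hb) F ?_ hF, hnA⟩
        intro v hv
        exact mem_erase.2 ⟨fun hvb => hbF (hvb ▸ hv), hFu hv⟩
    · left
      have hj' : ∀ i ∈ F, (L.getD i 0).testBit j = true ∧ ¬ R.testBit j = true := by
        intro i hi
        rcases (hnew i j).1 (hj i hi) with hh | hh
        · exact ⟨hh.1, hh.2.1⟩
        · exact absurd hh.1 hTj
      refine ⟨⟨hF, j, fun i hi => (hj' i hi).1⟩, fun hAF => ?_⟩
      obtain ⟨i0, hi0⟩ := hF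
      apply (hj' i0 hi0).2
      exact (hRt j).2 (fun i hi => (hj' i (hAF (mem_ms.2 hi))).1)
  · have key : ∀ F : Finset (Fin m), F.Nonempty → F ⊆ ms m α ∪ ms m β → ¬ ms m α ⊆ F →
        F ∈ KK m (upd R T (R ||| T) L α β js) := by
      intro F hF hFu hAF
      obtain ⟨a, ha, haF⟩ := not_subset.1 hAF
      refine ⟨hF, t a, ?_⟩
      intro i hi
      rw [hnew]
      right
      refine ⟨(pows_tb js _).2 (t1 a (by have := a.2; omega) (mem_ms.1 ha)), ?_⟩
      by_cases hai : α.testBit i = true
      · left
        refine ⟨hai, fun hh => haF ?_⟩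
        have := t2 a (by have := a.2; omega) i (by have := i.2; omega) (mem_ms.1 ha) hai hh
        rw [Fin.ext this]
        exact hi
      · right
        refine ⟨hai, ?_⟩
        rcases mem_union.1 (hFu hi) with q | q
        · exact absurd (mem_ms.1 q) hai
        · exact mem_ms.1 q
    rintro (⟨⟨hF, j, hj⟩, hAF⟩ | ⟨hFu, hBF, hAF⟩)
    · by_cases hRj : R.testBit j = true
      · apply key F hF _ hAF
        intro i hi
        by_contra hcon
        rw [mem_union, not_or, mem_ms, mem_ms] at hcon
        exact (hout i hcon.1 hcon.2 j (hj i hi)).1 hRj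
      · refine ⟨hF, j, fun i hi => ?_⟩
        rw [hnew]
        left
        exact ⟨hj i hi, hRj, hnoT i j (hj i hi) hRj⟩
    · exact key F (hB.mono hBF) hFu hAF

end Pool.Agent.V11201.RP
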