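import Pool.Agent.V11201.RP.Quo

set_option autoImplicit false
set_option linter.unusedSectionVars false
open Finset

namespace Pool.Agent.V11201.RP

/-- check of the double cover condition -/
def dcc (n : ℕ) (L : List ℕ) : Bool :=
  L.all fun x => ((L.take n).zip (L.drop n)).all fun p =>
    Nat.beq (Nat.land x p.1) 0 || Nat.beq (Nat.land x p.2) 0

/-- all vertices are used -/
def vcc (L : List ℕ) : Bool := L.all fun x => !Nat.beq x 0

theorem dcc_spec {n : ℕ} {L : List ℕ} (hL : L.length = n + n) (h : dcc n L = true)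
    (i : Fin (n + n)) (k : Fin n) : (L.getD i 0) &&& (L.getD (lo k) 0) = 0 ∨
      (L.getD i 0) &&& (L.getD (hi k) 0) = 0 := by
  unfold dcc at h
  rw [List.all_eq_true] at h
  have hi := i.2
  have hk := k.2
  have h1 : L.getD i 0 ∈ L := by
    rw [List.getD_eq_getElem L 0 (by omega)]
    exact List.getElem_mem _
  have h2 := h _ h1
  rw [List.all_eq_true] at h2
  have h3 : (L.getD (lo k) 0, L.getD (RP.hi k) 0) ∈ (L.take n).zip (L.drop n) := by
    have hlen : (k : ℕ) < ((L.take n).zip (L.drop n)).length := by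
      simp [hL]
    have e : ((L.take n).zip (L.drop n))[(k : ℕ)]'hlen =
        (L.getD (lo k) 0, L.getD (RP.hi k) 0) := by
      rw [List.getElem_zip]
      rw [List.getElem_take, List.getElem_drop]
      rw [List.getD_eq_getElem L 0 (show ((lo k : Fin (n + n)) : ℕ) < L.length by
        have := (lo k).2; omega)]
      rw [List.getD_eq_getElem L 0 (show ((RP.hi k : Fin (n + n)) : ℕ) < L.length by
        have := (RP.hi k).2; omega)]
      congr 1
      change L[n + (k : ℕ)] = L[(k : ℕ) + n]
      congr 1
      omega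
    rw [← e]
    exact List.getElem_mem _
  have h4 := h2 _ h3
  rw [Bool.or_eq_true, nbeq, nbeq] at h4
  exact h4

theorem final_thm {n : ℕ} {L : List ℕ} (hL : St n L) (h1 : dcc n L = true) (h2 : vcc L = true) :
    ∃ K : AbstractSimplicialComplex (Fin n), Nonempty (real K ≃ₜ RP6) := by
  have hv : ∀ k : Fin n, {lo k} ∈ KK (n + n) L := by
    intro k
    refine ⟨singleton_nonempty _, ?_⟩
    unfold vcc at h2
    rw [List.all_eq_true] at h2
    have hk : ((lo k : Fin (n + n)) : ℕ) < L.length := by
      have := (lo k).2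
      have := hL.len
      omega
    have h3 : L.getD (lo k) 0 ∈ L := by
      rw [List.getD_eq_getElem L 0 hk]
      exact List.getElem_mem _
    have h4 := h2 _ h3
    rw [Bool.not_eq_true'] at h4
    obtain ⟨j, hj⟩ := beq_not_zero.1 h4
    refine ⟨j, ?_⟩
    intro i hi
    rw [mem_singleton.1 hi]
    exact hj
  have hz : ∀ {z w j : ℕ}, z &&& w = 0 → z.testBit j = true → ¬ w.testBit j = true := by
    intro z w j hzw h1 h2
    have := congrArg (fun n => n.testBit j) hzw
    simp [h1, h2] at this
  refine ⟨quoK L hv, homeo_quo hL ?_ hv⟩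
  rintro i j F ⟨-, a, ha⟩ G ⟨-, b, hb⟩ hi hj hi' hj'
  have q := dcc_spec hL.len h1 i (pr j)
  rcases lo_or_hi j with h | h
  · rcases q with q | q
    · rw [← h] at q
      exact hz q (ha i hi) (ha j hj)
    · rw [← io_lo, ← h] at q
      exact hz q (hb i hi') (hb _ hj')
  · rcases q with q | q
    · rw [← io_hi, ← h] at q
      exact hz q (hb i hi') (hb _ hj')
    · rw [← h] at q
      exact hz q (ha i hi) (ha j hj)

end Pool.Agent.V11201.RP
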