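import Mathlib

set_option autoImplicit false
set_option linter.unusedSectionVars false
open Finset

namespace Pool.Agent.V11201.RP

variable {V : Type} [Fintype V] [DecidableEq V]

/-- the support of a point -/
noncomputable def sup (x : V → ℝ) : Finset V := univ.filter (fun v => x v ≠ 0)

/-- the geometric realization of a family of finite sets of vertices -/
def Re (K : Set (Finset V)) : Set (V → ℝ) :=
  {x | (∀ v, 0 ≤ x v) ∧ ∑ v, x v = 1 ∧ sup x ∈ K}

theorem mem_sup {x : V → ℝ} {v : V} : v ∈ sup x ↔ x v ≠ 0 := by simp [sup]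

/-- the minimum of a point over a set of vertices -/
noncomputable def mn (A : Finset V) (x : V → ℝ) : ℝ := if h : A.Nonempty then A.inf' h x else 0

theorem mn_cont (A : Finset V) : Continuous (mn A) := by
  unfold mn
  by_cases h : A.Nonempty
  · simp only [h, dif_pos]
    exact Continuous.finset_inf'_apply h (fun i _ => continuous_apply i)
  · simp only [h]
    exact continuous_const

theorem mn_le {A : Finset V} {x : V → ℝ} {v : V} (hv : v ∈ A) : mn A x ≤ x v := by
  unfold mn
  rw [dif_pos ⟨v, hv⟩]
  exact inf'_le _ hv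

theorem mn_mem {A : Finset V} (hA : A.Nonempty) (x : V → ℝ) : ∃ v ∈ A, mn A x = x v := by
  unfold mn
  rw [dif_pos hA]
  exact exists_mem_eq_inf' hA x

theorem mn_nonneg {A : Finset V} {x : V → ℝ} (hx : ∀ v, 0 ≤ x v) : 0 ≤ mn A x := by
  by_cases h : A.Nonempty
  · obtain ⟨v, -, hv⟩ := mn_mem h x
    rw [hv]; exact hx v
  · unfold mn
    rw [dif_neg h]

theorem mn_pos_iff {A : Finset V} (hA : A.Nonempty) {x : V → ℝ} (hx : ∀ v, 0 ≤ x v) :
    0 < mn A x ↔ A ⊆ sup x := by
  constructor
  · intro h v hv
    rw [mem_sup]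
    exact (h.trans_le (mn_le hv)).ne'
  · intro h
    obtain ⟨v, hv, hv'⟩ := mn_mem hA x
    rw [hv']
    exact lt_of_le_of_ne (hx v) (Ne.symm (mem_sup.1 (h hv)))

theorem mn_zero {A : Finset V} (hA : A.Nonempty) {x : V → ℝ} (hx : ∀ v, 0 ≤ x v)
    (h : ¬ A ⊆ sup x) : mn A x = 0 := by
  by_contra hcon
  exact h ((mn_pos_iff hA hx).1 (lt_of_le_of_ne (mn_nonneg hx) (Ne.symm hcon)))

/-- the homeomorphism of a bistellar flip -/
noncomputable def fl (A B : Finset V) (x : V → ℝ) : V → ℝ := fun v =>
  x v - (if v ∈ A then mn A x else 0) + (if v ∈ B then (A.card : ℝ) / B.card * mn A x else 0)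

theorem fl_cont (A B : Finset V) : Continuous (fl A B) := by
  unfold fl
  refine continuous_pi fun v => ?_
  have h := mn_cont A
  by_cases h1 : v ∈ A <;> by_cases h2 : v ∈ B <;> simp only [h1, h2, if_true, if_false] <;> fun_prop

theorem fl_of_zero {A B : Finset V} {x : V → ℝ} (h : mn A x = 0) : fl A B x = x := by
  funext v
  simp [fl, h]

/-- the conditions for a flip -/
structure Fb (K : Set (Finset V)) (A B : Finset V) : Prop where
  hA : A.Nonempty
  hB : B.Nonempty
  dis : Disjoint A B
  down : ∀ F ∈ K, ∀ G ⊆ F, G.Nonempty → G ∈ K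
  star : ∀ F ∈ K, A ⊆ F → F ⊆ A ∪ B
  full : ∀ b ∈ B, (A ∪ B).erase b ∈ K
  notB : ∀ F ∈ K, ¬ B ⊆ F

/-- the flipped complex -/
def fK (K : Set (Finset V)) (A B : Finset V) : Set (Finset V) :=
  {F | (F ∈ K ∧ ¬ A ⊆ F) ∨ (F ⊆ A ∪ B ∧ B ⊆ F ∧ ¬ A ⊆ F)}

variable {K : Set (Finset V)} {A B : Finset V}

theorem Fb.symm (h : Fb K A B) : Fb (fK K A B) B A where
  hA := h.hB
  hB := h.hA
  dis := h.dis.symm
  down := by
    rintro F (⟨h1, h2⟩ | ⟨h1, h2, h3⟩) G hG hGn
    · exact Or.inl ⟨h.down F h1 G hG hGn, fun hAG => h2 (hAG.trans hG)⟩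
    · by_cases hBG : B ⊆ G
      · exact Or.inr ⟨hG.trans h1, hBG, fun hAG => h3 (hAG.trans hG)⟩
      · left
        obtain ⟨b, hb, hbG⟩ := not_subset.1 hBG
        refine ⟨h.down _ (h.full b hb) G ?_ hGn, fun hAG => h3 (hAG.trans hG)⟩
        intro v hv
        exact mem_erase.2 ⟨fun hvb => hbG (hvb ▸ hv), h1 (hG hv)⟩
  star := by
    rintro F (⟨h1, h2⟩ | ⟨h1, h2, h3⟩) hBF
    · exact absurd hBF (h.notB F h1)
    · rw [union_comm]; exact h1
  full := by
    intro a ha
    right
    refine ⟨?_, ?_, ?_⟩
    · rw [union_comm]; exact erase_subset _ _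
    · intro b hb
      exact mem_erase.2 ⟨fun hba => (disjoint_left.1 h.dis ha) (hba ▸ hb), mem_union_left _ hb⟩
    · intro hA
      exact (mem_erase.1 (hA ha)).1 rfl
  notB := by
    rintro F (⟨h1, h2⟩ | ⟨h1, h2, h3⟩)
    · exact h2
    · exact h3

theorem Fb.back (h : Fb K A B) : fK (fK K A B) B A = K := by
  ext F
  constructor
  · rintro (⟨⟨h1, h2⟩ | ⟨h1, h2, h3⟩, h4⟩ | ⟨h1, h2, h3⟩)
    · exact h1
    · exact absurd h2 h4
    · obtain ⟨b, hb, hbF⟩ := not_subset.1 h3
      refine h.down _ (h.full b hb) F ?_ (h.hA.mono h2)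
      intro v hv
      refine mem_erase.2 ⟨fun hvb => hbF (hvb ▸ hv), ?_⟩
      rw [union_comm]; exact h1 hv
  · intro hF
    by_cases hAF : A ⊆ F
    · right
      refine ⟨?_, hAF, h.notB F hF⟩
      rw [union_comm]
      exact h.star F hF hAF
    · left
      exact ⟨Or.inl ⟨hF, hAF⟩, h.notB F hF⟩

theorem Fb.fl_mem (h : Fb K A B) {x : V → ℝ} (hx : x ∈ Re K) :
    fl A B x ∈ Re (fK K A B) ∧ mn B (fl A B x) = (A.card : ℝ) / B.card * mn A x := by
  obtain ⟨h0, h1, h2⟩ := hx
  have hBx : ¬ B ⊆ sup x := h.notB _ h2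
  have hmB : mn B x = 0 := mn_zero h.hB h0 hBx
  have hcA : (0 : ℝ) < A.card := by exact_mod_cast h.hA.card_pos
  have hcB : (0 : ℝ) < B.card := by exact_mod_cast h.hB.card_pos
  rcases (mn_nonneg (A := A) h0).eq_or_lt with hm | hm
  · rw [fl_of_zero hm.symm, ← hm, mul_zero]
    refine ⟨⟨h0, h1, Or.inl ⟨h2, ?_⟩⟩, hmB⟩
    intro hAx
    have := (mn_pos_iff h.hA h0).2 hAx
    linarith
  · have hAx := (mn_pos_iff h.hA h0).1 hm
    have hxAB := h.star _ h2 hAx
    have hcm : 0 < (A.card : ℝ) / B.card * mn A x := by positivity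
    have eA : ∀ v ∈ A, fl A B x v = x v - mn A x := by
      intro v hv
      have : v ∉ B := disjoint_left.1 h.dis hv
      simp [fl, hv, this]
    have eB : ∀ v ∈ B, fl A B x v = x v + (A.card : ℝ) / B.card * mn A x := by
      intro v hv
      have : v ∉ A := disjoint_right.1 h.dis hv
      simp [fl, hv, this]
    have eC : ∀ v, v ∉ A → v ∉ B → fl A B x v = 0 := by
      intro v hvA hvB
      have : v ∉ sup x := fun hv => by
        rcases mem_union.1 (hxAB hv) with hh | hh
        · exact hvA hh
        · exact hvB hh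
      have : x v = 0 := by
        by_contra hcon
        exact this (mem_sup.2 hcon)
      simp [fl, hvA, hvB, this]
    refine ⟨⟨?_, ?_, Or.inr ⟨?_, ?_, ?_⟩⟩, ?_⟩
    · intro v
      by_cases hvA : v ∈ A
      · rw [eA v hvA]
        have := mn_le (x := x) hvA
        linarith
      · by_cases hvB : v ∈ B
        · rw [eB v hvB]
          have := h0 v
          linarith
        · rw [eC v hvA hvB]
    · unfold fl
      rw [sum_add_distrib, sum_sub_distrib, h1, sum_ite_mem, sum_ite_mem, univ_inter, univ_inter,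
        sum_const, sum_const, nsmul_eq_mul, nsmul_eq_mul]
      field_simp
      ring
    · intro v hv
      by_contra hcon
      rw [mem_union, not_or] at hcon
      exact mem_sup.1 hv (eC v hcon.1 hcon.2)
    · intro v hv
      rw [mem_sup, eB v hv]
      have := h0 v
      linarith
    · intro hcon
      obtain ⟨a, ha, ha'⟩ := mn_mem h.hA x
      have := mem_sup.1 (hcon ha)
      rw [eA a ha, ha'] at this
      simp at this
    · apply le_antisymm
      · obtain ⟨b, hb, hb'⟩ := mn_mem h.hB x
        have h3 := mn_le (x := fl A B x) hb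
        rw [eB b hb, ← hb', hmB, zero_add] at h3
        exact h3
      · obtain ⟨b, hb, hb'⟩ := mn_mem h.hB (fl A B x)
        rw [hb', eB b hb]
        have := h0 b
        linarith

theorem Fb.fl_fl (h : Fb K A B) {x : V → ℝ} (hx : x ∈ Re K) : fl B A (fl A B x) = x := by
  have h1 := (h.fl_mem hx).2
  have hcA : (0 : ℝ) < A.card := by exact_mod_cast h.hA.card_pos
  have hcB : (0 : ℝ) < B.card := by exact_mod_cast h.hB.card_pos
  funext v
  change fl A B x v - (if v ∈ B then mn B (fl A B x) else 0) +
    (if v ∈ A then (B.card : ℝ) / A.card * mn B (fl A B x) else 0) = x v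
  rw [h1]
  unfold fl
  by_cases hvA : v ∈ A
  · have : v ∉ B := disjoint_left.1 h.dis hvA
    simp only [hvA, this, if_true, if_false]
    field_simp
    ring
  · by_cases hvB : v ∈ B
    · simp only [hvA, hvB, if_true, if_false]
      ring
    · simp only [hvA, hvB, if_false]
      ring

theorem Fb.back_mem (h : Fb K A B) {y : V → ℝ} (hy : y ∈ Re (fK K A B)) : fl B A y ∈ Re K := by
  have h1 := (h.symm.fl_mem hy).1
  rw [h.back] at h1
  exact h1

/-- the homeomorphism between the realizations -/
noncomputable def Fb.homeo (h : Fb K A B) : Re K ≃ₜ Re (fK K A B) where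
  toFun x := ⟨fl A B x.1, (h.fl_mem x.2).1⟩
  invFun y := ⟨fl B A y.1, h.back_mem y.2⟩
  left_inv x := Subtype.ext (h.fl_fl x.2)
  right_inv y := Subtype.ext (h.symm.fl_fl y.2)
  continuous_toFun := ((fl_cont A B).comp continuous_subtype_val).subtype_mk _
  continuous_invFun := ((fl_cont B A).comp continuous_subtype_val).subtype_mk _

/-- the family is invariant under the involution -/
def Sym (io : V → V) (K : Set (Finset V)) : Prop := ∀ F ∈ K, F.image io ∈ K

/-- the realization is equivariantly a six-sphere -/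
def Good (io : V → V) (K : Set (Finset V)) : Prop :=
  ∃ e : Re K ≃ₜ Metric.sphere (0 : EuclideanSpace ℝ (Fin 7)) 1,
    ∀ x y : Re K, y.1 = x.1 ∘ io → (e y).1 = -(e x).1

section eq
variable {io : V → V} (hio : Function.Involutive io)
include hio

theorem image_image (A : Finset V) : (A.image io).image io = A := by
  rw [Finset.image_image, hio.comp_self, image_id]

theorem sup_comp (x : V → ℝ) : sup (x ∘ io) = (sup x).image io := by
  ext v
  rw [mem_sup, mem_image]
  constructor
  · intro h
    exact ⟨io v, mem_sup.2 h, hio v⟩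
  · rintro ⟨w, hw, rfl⟩
    rw [mem_sup] at hw
    simpa [hio w] using hw

theorem mn_comp {A : Finset V} (hA : A.Nonempty) (x : V → ℝ) :
    mn A (x ∘ io) = mn (A.image io) x := by
  apply le_antisymm
  · obtain ⟨v, hv, hv'⟩ := mn_mem (hA.image io) x
    rw [hv']
    obtain ⟨w, hw, rfl⟩ := mem_image.1 hv
    exact mn_le (x := x ∘ io) hw
  · obtain ⟨v, hv, hv'⟩ := mn_mem hA (x ∘ io)
    rw [hv']
    exact mn_le (mem_image_of_mem io hv)

theorem mem_image_io {A : Finset V} {v : V} : v ∈ A.image io ↔ io v ∈ A := by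
  rw [mem_image]
  constructor
  · rintro ⟨w, hw, rfl⟩
    rw [hio w]; exact hw
  · intro h
    exact ⟨io v, h, hio v⟩

theorem fl_comp {A B : Finset V} (hA : A.Nonempty) (x : V → ℝ) :
    fl A B (x ∘ io) = fl (A.image io) (B.image io) x ∘ io := by
  funext v
  simp only [Function.comp, fl]
  have h1 := mn_comp hio hA x
  have q1 : ∀ (C : Finset V), (io v ∈ C.image io) = (v ∈ C) := fun C => by
    rw [mem_image_io hio, hio v]
  simp only [q1, h1, card_image_of_injective _ hio.injective]

theorem re_comp {K : Set (Finset V)} (hs : Sym io K) {x : V → ℝ} (hx : x ∈ Re K) :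
    x ∘ io ∈ Re K := by
  obtain ⟨h0, h1, h2⟩ := hx
  refine ⟨fun v => h0 _, ?_, ?_⟩
  · rw [← h1]
    exact (Equiv.sum_comp (hio.toPerm io) x)
  · rw [sup_comp hio]
    exact hs _ h2

theorem sub_image {A B : Finset V} (h : A.image io ⊆ B) : A ⊆ B.image io := by
  have := image_subset_image (f := io) h
  rwa [image_image hio] at this

/-- the step for a pair of flips -/
theorem Good.step {K : Set (Finset V)} {A B : Finset V} (hG : Good io K) (hs : Sym io K)
    (h1 : Fb K A B) (h2 : Fb (fK K A B) (A.image io) (B.image io))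
    (h3 : ¬ A.image io ⊆ A ∪ B) :
    Good io (fK (fK K A B) (A.image io) (B.image io)) ∧
      Sym io (fK (fK K A B) (A.image io) (B.image io)) := by
  set A' := A.image io with hA'
  set B' := B.image io with hB'
  have hAA : A'.image io = A := image_image hio A
  have hBB : B'.image io = B := image_image hio B
  have h3' : ¬ A ⊆ A' ∪ B' := by
    intro h
    apply h3
    have := image_subset_image (f := io) h
    rwa [image_union, hAA, hBB] at this
  have star' : ∀ F ∈ K, A' ⊆ F → F ⊆ A' ∪ B' := by
    intro F hF hAF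
    have e1 := h1.star _ (hs F hF) (sub_image hio hAF)
    have e2 := image_subset_image (f := io) e1
    rwa [image_image hio, image_union] at e2
  have comm : ∀ x ∈ Re K, fl A B (fl A' B' x) = fl A' B' (fl A B x) := by
    intro x hx
    obtain ⟨x0, x1, x2⟩ := hx
    by_cases hAx : A ⊆ sup x
    · have e1 := h1.star _ x2 hAx
      have e2 : mn A' x = 0 := mn_zero h2.hA x0 (fun h => h3 (h.trans e1))
      rw [fl_of_zero e2]
      have e3 := (h1.fl_mem ⟨x0, x1, x2⟩).1
      symm
      apply fl_of_zero
      apply mn_zero h2.hA e3.1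
      intro hcon
      rcases e3.2.2 with ⟨-, h4⟩ | ⟨h4, -, -⟩
      · -- then the point is fixed
        have h5 : sup (fl A B x) ⊆ A ∪ B := by
          intro v hv
          by_contra hcon'
          rw [mem_union, not_or] at hcon'
          apply mem_sup.1 hv
          have : x v = 0 := by
            by_contra hc
            rcases mem_union.1 (e1 (mem_sup.2 hc)) with hh | hh
            · exact hcon'.1 hh
            · exact hcon'.2 hh
          simp [fl, hcon'.1, hcon'.2, this]
        exact h3 (hcon.trans h5)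
      · exact h3 (hcon.trans h4)
    · have e1 : mn A x = 0 := mn_zero h1.hA x0 hAx
      rw [fl_of_zero e1]
      by_cases hAx' : A' ⊆ sup x
      · have e2 := star' _ x2 hAx'
        apply fl_of_zero
        have e4 : ∀ v, 0 ≤ fl A' B' x v := by
          intro v
          unfold fl
          have q1 := mn_nonneg (A := A') x0
          have q2 : 0 ≤ (if v ∈ B' then (A'.card : ℝ) / B'.card * mn A' x else 0) := by
            split_ifs
            · positivity
            · exact le_rfl
          by_cases hv : v ∈ A'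
          · have q3 := mn_le (x := x) hv
            simp only [hv, if_true]
            linarith
          · simp only [hv, if_false]
            have := x0 v
            linarith
        apply mn_zero h1.hA e4
        intro hcon
        apply h3'
        refine hcon.trans ?_
        intro v hv
        by_contra hcon'
        rw [mem_union, not_or] at hcon'
        apply mem_sup.1 hv
        have : x v = 0 := by
          by_contra hc
          rcases mem_union.1 (e2 (mem_sup.2 hc)) with hh | hh
          · exact hcon'.1 hh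
          · exact hcon'.2 hh
        simp [fl, hcon'.1, hcon'.2, this]
      · rw [fl_of_zero (mn_zero h2.hA x0 hAx'), fl_of_zero e1]
  constructor
  · obtain ⟨e, he⟩ := hG
    refine ⟨(h1.homeo.trans h2.homeo).symm.trans e, ?_⟩
    intro x y hxy
    change (e ((h1.homeo.trans h2.homeo).symm y)).1 = -(e ((h1.homeo.trans h2.homeo).symm x)).1
    apply he
    obtain ⟨x', rfl⟩ := (h1.homeo.trans h2.homeo).surjective x
    obtain ⟨y', rfl⟩ := (h1.homeo.trans h2.homeo).surjective y
    rw [Homeomorph.symm_apply_apply, Homeomorph.symm_apply_apply]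
    have hx2 := re_comp hio hs x'.2
    have key : y' = ⟨x'.1 ∘ io, hx2⟩ := by
      apply (h1.homeo.trans h2.homeo).injective
      apply Subtype.ext
      rw [hxy]
      change fl A' B' (fl A B x'.1) ∘ io = fl A' B' (fl A B (x'.1 ∘ io))
      have k1 := fl_comp hio (A := A) (B := B) h1.hA x'.1
      have k2 := fl_comp hio (A := A') (B := B') h2.hA (fl A' B' x'.1)
      rw [hAA, hBB] at k2
      rw [← hA', ← hB'] at k1
      rw [k1, k2, comm _ x'.2]
    rw [key]
  · rintro F (⟨⟨f1, f2⟩ | ⟨f1, f2, f3⟩, f4⟩ | ⟨f1, f2, f3⟩)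
    · left
      refine ⟨Or.inl ⟨hs F f1, fun h => f4 ?_⟩, fun h => f2 ?_⟩
      · have := image_subset_image (f := io) h
        rwa [image_image hio] at this
      · have := image_subset_image (f := io) h
        rwa [hAA, image_image hio] at this
    · right
      refine ⟨?_, image_subset_image f2, fun h => f3 ?_⟩
      · have := image_subset_image (f := io) f1
        rwa [image_union] at this
      · have := image_subset_image (f := io) h
        rwa [hAA, image_image hio] at this
    · left
      have g1 : F.image io ⊆ A ∪ B := by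
        have := image_subset_image (f := io) f1
        rwa [image_union, hAA, hBB] at this
      refine ⟨Or.inr ⟨g1, ?_, fun h => f3 ?_⟩, fun h => h3 (h.trans g1)⟩
      · have := image_subset_image (f := io) f2
        rwa [hBB] at this
      · have := image_subset_image (f := io) h
        rwa [image_image hio] at this

end eq

end Pool.Agent.V11201.RP
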