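import Mathlib

set_option autoImplicit false

namespace Pool.Agent.V11201.RP

/-- Two points of the six-sphere are equivalent if they are equal or antipodal. -/
def antip : Setoid (Metric.sphere (0 : EuclideanSpace ℝ (Fin 7)) 1) where
  r x y := y.1 = x.1 ∨ y.1 = -x.1
  iseqv := by
    refine ⟨fun x => Or.inl rfl, ?_, ?_⟩
    · rintro x y (h | h)
      · exact Or.inl h.symm
      · right; rw [h, neg_neg]
    · rintro x y z (h | h) (h' | h')
      · left; rw [h', h]
      · right; rw [h', h]
      · right; rw [h', h]
      · left; rw [h', h, neg_neg]

/-- Real projective space of dimension six: the quotient of the unit sphere of Euclidean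
seven-space by the antipodal map, with the quotient topology. -/
def RP6 : Type := Quotient antip

instance : TopologicalSpace RP6 := inferInstanceAs (TopologicalSpace (Quotient antip))

/-- The geometric realization of an abstract simplicial complex on `n` vertices: the points of the
standard simplex whose set of nonzero coordinates is a face, with the topology of Euclidean
space. -/
def real {n : ℕ} (K : AbstractSimplicialComplex (Fin n)) : Set (Fin n → ℝ) :=
  {x | (∀ v, 0 ≤ x v) ∧ ∑ v, x v = 1 ∧ Finset.univ.filter (fun v => x v ≠ 0) ∈ K.faces}

end Pool.Agent.V11201.RP
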