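import Pool.Agent.V11201.RP.Base
import Pool.Agent.V11201.RP.Proj

set_option autoImplicit false
set_option linter.unusedSectionVars false
open Finset

namespace Pool.Agent.V11201.RP

variable {n : ℕ}

/-- the projection of the vertices -/
def pr (i : Fin (n + n)) : Fin n :=
  if h : (i : ℕ) < n then ⟨i, h⟩ else ⟨i - n, by have := i.2; omega⟩

/-- the first lift -/
def lo (k : Fin n) : Fin (n + n) := ⟨k, by have := k.2; omega⟩

/-- the second lift -/
def hi (k : Fin n) : Fin (n + n) := ⟨k + n, by have := k.2; omega⟩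

theorem pr_lo (k : Fin n) : pr (lo k) = k := by
  unfold pr lo
  rw [dif_pos (by simp)]

theorem pr_hi (k : Fin n) : pr (hi k) = k := by
  unfold pr hi
  rw [dif_neg (by simp)]
  exact Fin.ext (by simp)

theorem lo_or_hi (i : Fin (n + n)) : i = lo (pr i) ∨ i = hi (pr i) := by
  by_cases h : (i : ℕ) < n
  · left
    unfold pr lo
    rw [dif_pos h]
  · right
    unfold pr hi
    rw [dif_neg h]
    apply Fin.ext
    change (i : ℕ) = i - n + n
    omega

theorem io_lo (k : Fin n) : io n (lo k) = hi k := by
  unfold io lo hi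
  rw [dif_pos (by simp)]

theorem io_hi (k : Fin n) : io n (hi k) = lo k := by
  rw [← io_lo, io_inv]

theorem pr_io (i : Fin (n + n)) : pr (io n i) = pr i := by
  rcases lo_or_hi i with h | h
  · rw [h, io_lo, pr_hi, pr_lo]
  · rw [h, io_hi, pr_hi, pr_lo]

theorem pr_eq {i j : Fin (n + n)} (h : pr i = pr j) : j = i ∨ j = io n i := by
  rcases lo_or_hi i with hi1 | hi1 <;> rcases lo_or_hi j with hj1 | hj1
  · left; rw [hi1, hj1, h]
  · right; rw [hi1, hj1, io_lo, h]
  · right; rw [hi1, hj1, io_hi, h]
  · left; rw [hi1, hj1, h]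

/-- push-forward of points -/
def push (x : Fin (n + n) → ℝ) : Fin n → ℝ := fun k => x (lo k) + x (hi k)

theorem push_cont : Continuous (push (n := n)) := by
  unfold push
  fun_prop

theorem sum_push (x : Fin (n + n) → ℝ) : ∑ k, push x k = ∑ i, x i := by
  rw [Fin.sum_univ_add]
  unfold push
  rw [sum_add_distrib]
  congr 1
  apply sum_congr rfl
  intro k _
  congr 1
  apply Fin.ext
  change (k : ℕ) + n = n + k
  omega

theorem push_io (x : Fin (n + n) → ℝ) : push (x ∘ io n) = push x := by
  funext k
  unfold push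
  simp only [Function.comp, io_lo, io_hi]
  rw [add_comm]

theorem push_pr (x : Fin (n + n) → ℝ) (i : Fin (n + n)) : push x (pr i) = x i + x (io n i) := by
  unfold push
  rcases lo_or_hi i with h | h
  · rw [h, pr_lo, io_lo]
  · rw [h, pr_hi, io_hi, add_comm]

/-- the double cover condition -/
def DC (K : Set (Finset (Fin (n + n)))) : Prop :=
  ∀ i j : Fin (n + n), ∀ F ∈ K, ∀ G ∈ K, i ∈ F → j ∈ F → i ∈ G → io n j ∈ G → False

/-- the image family -/
def imK (K : Set (Finset (Fin (n + n)))) : Set (Finset (Fin n)) :=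
  {G | ∃ F ∈ K, F.image pr = G}

theorem sup_push {x : Fin (n + n) → ℝ} (hx : ∀ i, 0 ≤ x i) :
    Finset.univ.filter (fun v => push x v ≠ 0) = (sup x).image pr := by
  ext k
  rw [mem_filter, mem_image]
  constructor
  · rintro ⟨-, h⟩
    by_cases h1 : x (lo k) = 0
    · refine ⟨hi k, mem_sup.2 (fun h2 => h ?_), pr_hi k⟩
      unfold push
      rw [h1, h2, add_zero]
    · exact ⟨lo k, mem_sup.2 h1, pr_lo k⟩
  · rintro ⟨i, hi', rfl⟩
    refine ⟨mem_univ _, ?_⟩
    rw [push_pr]
    have h1 := hx i
    have h2 := hx (io n i)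
    have h3 := mem_sup.1 hi'
    intro h4
    exact h3 (by linarith)

theorem no_anti {K : Set (Finset (Fin (n + n)))} (hd : DC K) {F : Finset (Fin (n + n))}
    (hF : F ∈ K) {i : Fin (n + n)} (hi : i ∈ F) : io n i ∉ F := by
  intro h
  exact hd i i F hF F hF hi hi hi h

theorem same_image {K : Set (Finset (Fin (n + n)))} (hd : DC K) (hs : Sym (io n) K)
    {F G : Finset (Fin (n + n))} (hF : F ∈ K) (hG : G ∈ K) (hne : F.Nonempty)
    (h : F.image pr = G.image pr) : G = F ∨ G = F.image (io n) := by
  have key : ∀ G ∈ K, F.image pr = G.image pr → ∀ i0 ∈ F, i0 ∈ G → G = F := by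
    intro G hG h i0 hi0 hi0'
    apply Subset.antisymm
    · intro i hi
      have h1 : pr i ∈ F.image pr := by rw [h]; exact mem_image_of_mem _ hi
      obtain ⟨j, hj, hji⟩ := mem_image.1 h1
      rcases pr_eq hji with h2 | h2
      · rw [h2]; exact hj
      · exfalso
        rw [h2] at hi
        exact hd i0 j F hF G hG hi0 hj hi0' hi
    · intro i hi
      have h1 : pr i ∈ G.image pr := by rw [← h]; exact mem_image_of_mem _ hi
      obtain ⟨j, hj, hji⟩ := mem_image.1 h1
      rcases pr_eq hji with h2 | h2
      · rw [h2]; exact hj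
      · exfalso
        rw [h2] at hi
        exact hd i0 j G hG F hF hi0' hj hi0 hi
  obtain ⟨i0, hi0⟩ := hne
  have h1 : pr i0 ∈ G.image pr := by rw [← h]; exact mem_image_of_mem _ hi0
  obtain ⟨j, hj, hji⟩ := mem_image.1 h1
  rcases pr_eq hji.symm with h2 | h2
  · left
    rw [h2] at hj
    exact key G hG h i0 hi0 hj
  · right
    have h3 : i0 ∈ G.image (io n) := by
      rw [mem_image_io (io_inv n), ← h2]; exact hj
    have h4 : F.image pr = (G.image (io n)).image pr := by
      rw [h, Finset.image_image]
      apply image_congr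
      intro v _
      exact (pr_io v).symm
    have h5 := key _ (hs G hG) h4 i0 hi0 h3
    rw [← h5, image_image (io_inv n)]

theorem push_inj {K : Set (Finset (Fin (n + n)))} (hd : DC K) (hs : Sym (io n) K)
    {x y : Fin (n + n) → ℝ} (hx : x ∈ Re K) (hy : y ∈ Re K) (h : push x = push y) :
    y = x ∨ y = x ∘ io n := by
  have hne : (sup x).Nonempty := by
    by_contra hcon
    rw [not_nonempty_iff_eq_empty] at hcon
    have h1 := hx.2.1
    rw [sum_eq_zero] at h1
    · norm_num at h1
    · intro i _
      by_contra h2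
      have := mem_sup.2 h2
      rw [hcon] at this
      exact notMem_empty _ this
  have h1 : (sup x).image pr = (sup y).image pr := by
    rw [← sup_push hx.1, ← sup_push hy.1, h]
  have key : ∀ y ∈ Re K, push x = push y → sup y = sup x → y = x := by
    intro y hy h hsy
    funext i
    by_cases hi : i ∈ sup x
    · have e1 : x (io n i) = 0 := by
        by_contra hc
        exact no_anti hd hx.2.2 hi (mem_sup.2 hc)
      have e2 : y (io n i) = 0 := by
        by_contra hc
        rw [← hsy] at hi
        exact no_anti hd hy.2.2 hi (mem_sup.2 hc)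
      have e3 := congrFun h (pr i)
      rw [push_pr, push_pr, e1, e2, add_zero, add_zero] at e3
      exact e3.symm
    · have e1 : x i = 0 := by
        by_contra hc
        exact hi (mem_sup.2 hc)
      rw [← hsy] at hi
      have e2 : y i = 0 := by
        by_contra hc
        exact hi (mem_sup.2 hc)
      rw [e1, e2]
  rcases same_image hd hs hx.2.2 hy.2.2 hne h1 with h2 | h2
  · left; exact key y hy h h2
  · right
    have h3 := key (y ∘ io n) (re_comp (io_inv n) hs hy) (by rw [push_io]; exact h) (by
      rw [sup_comp (io_inv n), h2, image_image (io_inv n)])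
    rw [← h3]
    funext i
    simp only [Function.comp]
    rw [io_inv n i]

theorem push_surj {K : Set (Finset (Fin (n + n)))} (hd : DC K) {z : Fin n → ℝ}
    (h0 : ∀ v, 0 ≤ z v) (h1 : ∑ v, z v = 1)
    (h2 : Finset.univ.filter (fun v => z v ≠ 0) ∈ imK K) : ∃ x ∈ Re K, push x = z := by
  classical
  obtain ⟨F, hF, hFz⟩ := h2
  let x : Fin (n + n) → ℝ := fun i => if i ∈ F then z (pr i) else 0
  have hx0 : ∀ i, 0 ≤ x i := by
    intro i
    simp only [x]
    split_ifs
    · exact h0 _
    · exact le_rfl
  have hpush : push x = z := by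
    funext k
    by_cases hk : z k = 0
    · unfold push
      simp only [x, pr_lo, pr_hi, hk, ite_self, add_zero]
    · have h3 : k ∈ F.image pr := by rw [hFz]; simp [hk]
      obtain ⟨i, hi, rfl⟩ := mem_image.1 h3
      rw [push_pr]
      simp only [x, hi, no_anti hd hF hi, if_true, if_false, add_zero]
  have hsup : sup x = F := by
    ext i
    rw [mem_sup]
    simp only [x]
    constructor
    · intro h
      by_contra hc
      rw [if_neg hc] at h
      exact h rfl
    · intro hi
      rw [if_pos hi]
      have : pr i ∈ Finset.univ.filter (fun v => z v ≠ 0) := by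
        rw [← hFz]; exact mem_image_of_mem _ hi
      exact (mem_filter.1 this).2
  refine ⟨x, ⟨hx0, ?_, by rw [hsup]; exact hF⟩, hpush⟩
  rw [← sum_push, hpush, h1]

/-- the quotient complex -/
def quoK (L : List ℕ) (hv : ∀ k : Fin n, {lo k} ∈ KK (n + n) L) :
    AbstractSimplicialComplex (Fin n) where
  faces := imK (KK (n + n) L)
  isRelLowerSet_faces := by
    rintro G ⟨F, hF, rfl⟩
    refine ⟨hF.1.image _, ?_⟩
    intro G' hG' hne
    obtain ⟨F', hF', rfl⟩ := subset_image_iff.1 hG'
    refine ⟨F', ?_, rfl⟩
    obtain ⟨h1, j, hj⟩ := hF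
    exact ⟨image_nonempty.1 hne, j, fun i hi => hj i (hF' hi)⟩
  singleton_mem := fun k => ⟨{lo k}, hv k, by rw [image_singleton, pr_lo]⟩

theorem homeo_quo {L : List ℕ} (hL : St n L) (hd : DC (KK (n + n) L))
    (hv : ∀ k : Fin n, {lo k} ∈ KK (n + n) L) : Nonempty (real (quoK L hv) ≃ₜ RP6) := by
  obtain ⟨e, he⟩ := hL.good
  have hmem : ∀ x : Re (KK (n + n) L), push x.1 ∈ real (quoK L hv) := by
    intro x
    refine ⟨?_, ?_, ?_⟩
    · intro k
      exact add_nonneg (x.2.1 _) (x.2.1 _)
    · rw [sum_push]; exact x.2.2.1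
    · rw [sup_push x.2.1]
      exact ⟨sup x.1, x.2.2.2, rfl⟩
  let g : Metric.sphere (0 : EuclideanSpace ℝ (Fin 7)) 1 → real (quoK L hv) :=
    fun y => ⟨push (e.symm y).1, hmem _⟩
  have hg : Continuous g :=
    (push_cont.comp (continuous_subtype_val.comp e.symm.continuous)).subtype_mk _
  have hgeq : ∀ y y', g y = g y' ↔ antip.r y y' := by
    intro y y'
    have hcomp : ∀ x : Re (KK (n + n) L), x.1 ∘ io n ∈ Re (KK (n + n) L) :=
      fun x => re_comp (io_inv n) hL.sym x.2
    constructor
    · intro h
      have h1 : push (e.symm y).1 = push (e.symm y').1 := congrArg Subtype.val h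
      rcases push_inj hd hL.sym (e.symm y).2 (e.symm y').2 h1 with h2 | h2
      · left
        have : e.symm y' = e.symm y := Subtype.ext h2
        rw [e.symm.injective this]
      · right
        have := he _ _ h2
        rw [e.apply_symm_apply, e.apply_symm_apply] at this
        exact this
    · rintro (h | h)
      · rw [Subtype.ext h]
      · have h3 := he (e.symm y) ⟨_, hcomp (e.symm y)⟩ rfl
        rw [e.apply_symm_apply, ← h] at h3
        have h4 : e.symm y' = ⟨_, hcomp (e.symm y)⟩ := by
          rw [← Subtype.ext h3, e.symm_apply_apply]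
        apply Subtype.ext
        change push (e.symm y).1 = push (e.symm y').1
        rw [h4]
        exact (push_io _).symm
  have hsurj : Function.Surjective g := by
    rintro ⟨z, h0, h1, h2⟩
    obtain ⟨x, hx, hxz⟩ := push_surj hd h0 h1 h2
    refine ⟨e ⟨x, hx⟩, Subtype.ext ?_⟩
    change push (e.symm (e ⟨x, hx⟩)).1 = z
    rw [e.symm_apply_apply]
    exact hxz
  let G : RP6 → real (quoK L hv) := Quotient.lift g (fun a b h => (hgeq a b).2 h)
  have hG : Continuous G := hg.quotient_lift _
  have hGb : Function.Bijective G := by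
    constructor
    · intro a b
      induction a using Quotient.inductionOn with
      | h a =>
        induction b using Quotient.inductionOn with
        | h b =>
          intro h
          exact Quotient.sound ((hgeq a b).1 h)
    · intro z
      obtain ⟨y, rfl⟩ := hsurj z
      exact ⟨Quotient.mk _ y, rfl⟩
  have hcp : CompactSpace RP6 := Quotient.compactSpace
  exact ⟨(Continuous.homeoOfEquivCompactToT2 (f := Equiv.ofBijective G hGb) hG).symm⟩

end Pool.Agent.V11201.RP
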