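import Pool.Agent.V11201.RP.Check

set_option autoImplicit false
set_option linter.unusedSectionVars false
open Finset

namespace Pool.Agent.V11201.RP

/-- the involution on the vertices -/
def io (n : ℕ) (i : Fin (n + n)) : Fin (n + n) :=
  if h : (i : ℕ) < n then ⟨i + n, by omega⟩ else ⟨i - n, by have := i.2; omega⟩

theorem io_inv (n : ℕ) : Function.Involutive (io n) := by
  intro i
  unfold io
  by_cases h : (i : ℕ) < n
  · simp [h]
  · have := i.2
    have h2 : (i : ℕ) - n < n := by omega
    simp only [h, dite_false, h2, dite_true]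
    apply Fin.ext
    simp
    omega

/-- the mirror image of a mask -/
def mir (n α : ℕ) : ℕ := Nat.lor (Nat.shiftRight α n) (Nat.shiftLeft (Nat.mod α (Nat.pow 2 n)) n)

theorem mir_tb {n α : ℕ} (h : α < 2 ^ (n + n)) (i : Fin (n + n)) :
    (mir n α).testBit i = true ↔ α.testBit (io n i) = true := by
  have e : (mir n α).testBit i = ((α >>> n).testBit i || ((α % 2 ^ n) <<< n).testBit i) :=
    Nat.testBit_or _ _ _
  rw [e, Nat.testBit_shiftRight, Nat.testBit_shiftLeft, Nat.testBit_mod_two_pow]
  have hi := i.2
  unfold io
  by_cases h1 : (i : ℕ) < n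
  · have h2 : ¬ (n ≤ (i : ℕ)) := by omega
    simp [h1, h2, add_comm]
  · have h2 : n ≤ (i : ℕ) := by omega
    have h3 : (i : ℕ) - n < n := by omega
    have h4 : α.testBit (n + i) = false := by
      apply Nat.testBit_lt_two_pow
      apply h.trans_le
      exact Nat.pow_le_pow_right (by norm_num) (by omega)
    simp [h1, h2, h3, h4]

theorem ms_mir {n α : ℕ} (h : α < 2 ^ (n + n)) :
    ms (n + n) (mir n α) = (ms (n + n) α).image (io n) := by
  ext i
  rw [mem_image_io (io_inv n), mem_ms, mem_ms, mir_tb h]

theorem digs_len (l : List ℕ) (J : ℕ) : (digs l J).length = l.length := by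
  induction l generalizing J with
  | nil => rfl
  | cons x l ih =>
    change (digs l (Nat.div J 16384)).length + 1 = l.length + 1
    rw [ih]

/-- two mirror flips -/
noncomputable def pst (n α β J J' : ℕ) (L : List ℕ) : List ℕ :=
  (fun (α' β' : ℕ) =>
    Bool.rec (motive := fun _ => List ℕ) []
      (Bool.rec (motive := fun _ => List ℕ) []
        (Bool.rec (motive := fun _ => List ℕ)
          ((fun L1 : List ℕ => stp α' β' (digs (sel L1 α') J') L1)
            (stp α β (digs (sel L α) J) L)) []
          (Nat.beq (Nat.land α' (Nat.lor α β)) α'))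
        (Nat.beq (Nat.land α' β') 0))
      (Nat.beq (Nat.land α β) 0)) (mir n α) (mir n β)

/-- a code of two mirror flips -/
noncomputable def cst (n M : ℕ) (c : ℕ) (L : List ℕ) : List ℕ :=
  (fun c' => (fun c'' =>
    pst n (Nat.mod c M) (Nat.mod c' M) (Nat.mod c'' 316912650057057350374175801344)
      (Nat.div c'' 316912650057057350374175801344) L) (Nat.div c' M)) (Nat.div c M)

/-- force the spine -/
noncomputable def spn (L : List ℕ) : Bool :=
  List.rec (motive := fun _ => Bool) true (fun _ _ ih => ih) L

theorem spn_true (L : List ℕ) : spn L = true := by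
  induction L with
  | nil => rfl
  | cons x l ih => exact ih

/-- a run -/
noncomputable def run (n M : ℕ) (cs : List ℕ) : List ℕ → List ℕ :=
  List.rec (motive := fun _ => List ℕ → List ℕ) (fun L => L)
    (fun c _ ih L => (fun L1 : List ℕ => Bool.rec (motive := fun _ => List ℕ) [] (ih L1) (spn L1))
      (cst n M c L)) cs

/-- equality of lists -/
noncomputable def leq (L : List ℕ) : List ℕ → Bool :=
  List.rec (motive := fun _ => List ℕ → Bool)
    (fun L' => List.rec (motive := fun _ => Bool) true (fun _ _ _ => false) L')
    (fun x _ ih L' => List.rec (motive := fun _ => Bool) false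
      (fun y l' _ => Bool.rec false (ih l') (Nat.beq x y)) L') L

theorem leq_spec {L L' : List ℕ} (h : leq L L' = true) : L = L' := by
  induction L generalizing L' with
  | nil =>
    cases L' with
    | nil => rfl
    | cons y l' => exact absurd h Bool.false_ne_true
  | cons x l ih =>
    cases L' with
    | nil => exact absurd h Bool.false_ne_true
    | cons y l' =>
      change (Bool.rec false (leq l l') (Nat.beq x y) : Bool) = true at h
      cases hz : Nat.beq x y with
      | false => rw [hz] at h; exact absurd h Bool.false_ne_true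
      | true =>
        rw [hz] at h
        rw [(nbeq x y).1 hz, ih h]

/-- the invariants of a state -/
structure St (n : ℕ) (L : List ℕ) : Prop where
  len : L.length = n + n
  good : Good (io n) (KK (n + n) L)
  sym : Sym (io n) (KK (n + n) L)

theorem pst_eq {n α β J J' : ℕ} {L : List ℕ} {m : ℕ} (hm : 0 < m)
    (h : (pst n α β J J' L).length = m) : α &&& β = 0 ∧ mir n α &&& mir n β = 0 ∧
      mir n α &&& (α ||| β) ≠ mir n α ∧
      pst n α β J J' L = stp (mir n α) (mir n β)
        (digs (sel (stp α β (digs (sel L α) J) L) (mir n α)) J')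
        (stp α β (digs (sel L α) J) L) := by
  have e : pst n α β J J' L = Bool.rec (motive := fun _ => List ℕ) []
      (Bool.rec (motive := fun _ => List ℕ) []
        (Bool.rec (motive := fun _ => List ℕ)
          (stp (mir n α) (mir n β) (digs (sel (stp α β (digs (sel L α) J) L) (mir n α)) J')
            (stp α β (digs (sel L α) J) L)) []
          (Nat.beq (mir n α &&& (α ||| β)) (mir n α)))
        (Nat.beq (mir n α &&& mir n β) 0))
      (Nat.beq (α &&& β) 0) := rfl
  rw [e] at h ⊢
  cases h1 : Nat.beq (α &&& β) 0 with
  | false => rw [h1] at h; simp at h; omega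
  | true =>
    rw [h1] at h
    cases h2 : Nat.beq (mir n α &&& mir n β) 0 with
    | false => rw [h2] at h; simp at h; omega
    | true =>
      rw [h2] at h
      cases h3 : Nat.beq (mir n α &&& (α ||| β)) (mir n α) with
      | true => rw [h3] at h; simp at h; omega
      | false =>
        refine ⟨(nbeq _ _).1 h1, (nbeq _ _).1 h2, ?_, rfl⟩
        intro hh
        rw [(nbeq _ _).2 hh] at h3
        exact absurd h3 (by decide)

theorem stp_len_le {α β : ℕ} {js L : List ℕ} : (stp α β js L).length ≤ L.length := by
  rcases Nat.eq_zero_or_pos (stp α β js L).length with h | h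
  · omega
  · exact stp_le h rfl

theorem pst_le {n α β J J' : ℕ} {L : List ℕ} : (pst n α β J J' L).length ≤ L.length := by
  rcases Nat.eq_zero_or_pos (pst n α β J J' L).length with h | h
  · omega
  · obtain ⟨-, -, -, e⟩ := pst_eq h rfl
    rw [e]
    exact stp_len_le.trans stp_len_le

theorem St.pst {n : ℕ} (hn : 0 < n) {L : List ℕ} (hL : St n L) {α β J J' : ℕ}
    (hα : α < 2 ^ (n + n)) (hβ : β < 2 ^ (n + n)) (h : (pst n α β J J' L).length = n + n) :
    St n (RP.pst n α β J J' L) := by
  have hm : 0 < n + n := by omega
  obtain ⟨h1, h2, h3, h4⟩ := pst_eq hm h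
  rw [h4] at h ⊢
  set L1 := stp α β (digs (sel L α) J) L with hL1
  have len1 : L1.length = n + n := by
    apply le_antisymm
    · rw [← hL.len]; exact stp_len_le
    · rw [← h]; exact stp_len_le
  obtain ⟨a1, a2⟩ := stp_spec hm hL.len (digs_len _ _) h1 len1
  rw [← hL1] at a2
  obtain ⟨b1, b2⟩ := stp_spec hm len1 (digs_len _ _) h2 h
  rw [a2, ms_mir hα, ms_mir hβ] at b1 b2
  have hne : ¬ (ms (n + n) α).image (io n) ⊆ ms (n + n) α ∪ ms (n + n) β := by
    intro hh
    apply h3
    apply Nat.eq_of_testBit_eq
    intro j
    rw [Nat.testBit_and, Nat.testBit_or]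
    cases hj : (mir n α).testBit j with
    | false => rfl
    | true =>
      by_cases hjn : j < n + n
      · have q1 : (⟨j, hjn⟩ : Fin (n + n)) ∈ (ms (n + n) α).image (io n) := by
          rw [← ms_mir hα, mem_ms]; exact hj
        have q2 := hh q1
        rw [mem_union, mem_ms, mem_ms] at q2
        rcases q2 with q2 | q2
        · rw [q2]; rfl
        · rw [q2]; simp
      · exfalso
        have : mir n α < 2 ^ (n + n) := by
          apply Nat.or_lt_two_pow
          · exact (Nat.shiftRight_le α n).trans_lt hα
          · have e1 : Nat.mod α (Nat.pow 2 n) < 2 ^ n :=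
              Nat.mod_lt α (show 0 < 2 ^ n by positivity)
            change (Nat.mod α (Nat.pow 2 n)) <<< n < _
            rw [Nat.shiftLeft_eq, pow_add]
            exact Nat.mul_lt_mul_of_pos_right e1 (by positivity)
        have h5 : (mir n α).testBit j = false := by
          apply Nat.testBit_lt_two_pow
          exact this.trans_le (Nat.pow_le_pow_right (by norm_num) (by omega))
        rw [h5] at hj
        exact Bool.false_ne_true hj
  obtain ⟨g1, g2⟩ := Good.step (io_inv n) hL.good hL.sym a1 b1 hne
  exact ⟨h, by rw [b2]; exact g1, by rw [b2]; exact g2⟩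

theorem run_nil (n M : ℕ) (L : List ℕ) : run n M [] L = L := rfl

theorem run_cons (n M c : ℕ) (cs : List ℕ) (L : List ℕ) :
    run n M (c :: cs) L = run n M cs (cst n M c L) := by
  change Bool.rec (motive := fun _ => List ℕ) [] (run n M cs (cst n M c L)) (spn (cst n M c L)) = _
  rw [spn_true]

theorem run_le (n M : ℕ) (cs : List ℕ) (L : List ℕ) : (run n M cs L).length ≤ L.length := by
  induction cs generalizing L with
  | nil => exact le_rfl
  | cons c cs ih =>
    rw [run_cons]
    exact (ih _).trans pst_le

theorem St.run {n : ℕ} (hn : 0 < n) {M : ℕ} (hM : M = 2 ^ (n + n)) (cs : List ℕ) {L : List ℕ}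
    (hL : St n L) (h : (run n M cs L).length = n + n) : St n (RP.run n M cs L) := by
  induction cs generalizing L with
  | nil => exact hL
  | cons c cs ih =>
    rw [run_cons] at h ⊢
    apply ih _ h
    have hlen : (cst n M c L).length = n + n := by
      apply le_antisymm
      · rw [← hL.len]; exact pst_le
      · rw [← h]; exact run_le _ _ _ _
    have hMp : 0 < M := by rw [hM]; positivity
    exact St.pst hn hL (by rw [← hM]; exact Nat.mod_lt _ hMp)
      (by rw [← hM]; exact Nat.mod_lt _ hMp) hlen

theorem St.chunk {n : ℕ} (hn : 0 < n) {M : ℕ} (hM : M = 2 ^ (n + n)) {cs : List ℕ} {L L' : List ℕ}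
    (hL : St n L) (h : leq (RP.run n M cs L) L' = true) (hlen : L'.length = n + n) : St n L' := by
  have e := leq_spec h
  rw [← e]
  exact hL.run hn hM cs (by rw [e]; exact hlen)

end Pool.Agent.V11201.RP
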