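import Pool.Agent.V11201.RP.Fini

set_option autoImplicit false
set_option linter.unusedSectionVars false
open Finset

namespace Pool.Agent.V11201.RP

theorem pp_lt {n : ℕ} (hn : 7 ≤ n) (k : Fin 7) : ((pp hn k : Fin (n + n)) : ℕ) = k := rfl

theorem qq_val {n : ℕ} (hn : 7 ≤ n) (k : Fin 7) : ((qq hn k : Fin (n + n)) : ℕ) = k + n := rfl

/-- the first state -/
theorem st_base {n : ℕ} (hn : 7 ≤ n) {L : List ℕ} (hlen : L.length = n + n)
    (h1 : ∀ i : Fin (n + n), ¬ ((i : ℕ) < 7 ∨ (n ≤ (i : ℕ) ∧ (i : ℕ) < n + 7)) →
      L.getD i 0 = 0)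
    (h2 : ∀ k : Fin 7, L.getD k 0 < 2 ^ 128 ∧ L.getD (k + n) 0 < 2 ^ 128)
    (h3 : ∀ k : Fin 7, ∀ j : Fin 128, (L.getD k 0).testBit j = !(Nat.testBit j k) ∧
      (L.getD (k + n) 0).testBit j = Nat.testBit j k) : St n L := by
  have hK : KK (n + n) L = cross n := by
    ext F
    constructor
    · rintro ⟨hF, j, hj⟩
      have key : ∀ i ∈ F, (i : ℕ) < 7 ∨ (n ≤ (i : ℕ) ∧ (i : ℕ) < n + 7) := by
        intro i hi
        by_contra hcon
        have := hj i hi
        rw [h1 i hcon] at this
        simp at this
      have key2 : ∀ k : Fin 7, pp hn k ∈ F → qq hn k ∉ F := by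
        intro k hk hk'
        have e1 := hj _ hk
        have e2 := hj _ hk'
        rw [pp_lt] at e1
        rw [qq_val] at e2
        have hj128 : j < 128 := by
          by_contra hc
          have := Nat.testBit_lt_two_pow ((h2 k).1.trans_le
            (Nat.pow_le_pow_right (by norm_num) (not_lt.1 hc)))
          rw [this] at e1
          exact Bool.false_ne_true e1
        have e3 := (h3 k ⟨j, hj128⟩).1
        have e4 := (h3 k ⟨j, hj128⟩).2
        rw [e1] at e3
        rw [e2] at e4
        rw [← e4] at e3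
        simp at e3
      refine ⟨hF, key, ?_⟩
      intro i hi hi'
      rcases key i hi with h | h
      · have e : i = pp hn ⟨i, h⟩ := rfl
        rw [e] at hi hi'
        rw [io_pp] at hi'
        exact key2 _ hi hi'
      · have e : i = qq hn ⟨i - n, by omega⟩ := by
          apply Fin.ext
          change (i : ℕ) = i - n + n
          omega
        rw [e] at hi hi'
        rw [io_qq] at hi'
        exact key2 _ hi' hi
    · rintro ⟨hF, key, hio⟩
      classical
      set f : Fin 7 → Bool := fun k => decide (qq hn k ∈ F) with hf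
      have hj : Nat.ofBits f < 128 := by
        have := Nat.ofBits_lt_two_pow f
        simpa using this
      refine ⟨hF, Nat.ofBits f, ?_⟩
      intro i hi
      rcases key i hi with h | h
      · have e : i = pp hn ⟨i, h⟩ := rfl
        rw [e] at hi ⊢
        have h4 := hio _ hi
        rw [io_pp] at h4
        rw [pp_lt, (h3 ⟨i, h⟩ ⟨_, hj⟩).1]
        simp only
        rw [Nat.testBit_ofBits_lt f _ h]
        simp [hf, h4]
      · have e : i = qq hn ⟨i - n, by omega⟩ := by
          apply Fin.ext
          change (i : ℕ) = i - n + n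
          omega
        have h7 : (i : ℕ) - n < 7 := by omega
        rw [e] at hi ⊢
        rw [qq_val, (h3 ⟨i - n, by omega⟩ ⟨_, hj⟩).2]
        simp only
        rw [Nat.testBit_ofBits_lt f _ h7]
        simp only [hf, decide_eq_true_iff]
        exact hi
  refine ⟨hlen, ?_, ?_⟩
  · rw [hK]; exact good_cross hn
  · rw [hK]; exact sym_cross

end Pool.Agent.V11201.RP
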